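import Mathlib

/-! Analytic lemmas for the Schneider–Lang argument. -/

open Filter
open scoped Topology Nat

noncomputable section

namespace H667R3

lemma iteratedDeriv_pow_mul (s : ℕ) (w : ℂ) (g : ℂ → ℂ) (hg : AnalyticAt ℂ g w) :
    iteratedDeriv s (fun z => (z - w) ^ s * g z) w = s ! * g w := by
  induction s generalizing g with
  | zero => simp
  | succ s ih =>
    rw [iteratedDeriv_succ']
    have h1 : deriv (fun z => (z - w) ^ (s + 1) * g z) =ᶠ[𝓝 w]
        fun z => (z - w) ^ s * ((s + 1) * g z + (z - w) * deriv g z) := by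
      filter_upwards [hg.eventually_analyticAt] with z hz
      have hp : HasDerivAt (fun z : ℂ => (z - w) ^ (s + 1)) (((s : ℂ) + 1) * (z - w) ^ s) z := by
        have := ((hasDerivAt_id z).sub_const w).fun_pow (s + 1)
        simpa using this
      have := hp.fun_mul hz.differentiableAt.hasDerivAt
      rw [this.deriv]
      ring
    rw [h1.iteratedDeriv_eq, ih _ (by fun_prop)]
    rw [sub_self, zero_mul, add_zero, Nat.factorial_succ]
    push_cast
    ring

lemma iteratedDeriv_of_eventually_eq {s : ℕ} {w : ℂ} {f g : ℂ → ℂ} (hg : AnalyticAt ℂ g w)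
    (h : ∀ᶠ z in 𝓝 w, f z = (z - w) ^ s * g z) : iteratedDeriv s f w = s ! * g w := by
  have : f =ᶠ[𝓝 w] fun z => (z - w) ^ s * g z := h
  rw [this.iteratedDeriv_eq, iteratedDeriv_pow_mul s w g hg]

lemma differentiable_dslope {f : ℂ → ℂ} (hf : Differentiable ℂ f) (w : ℂ) :
    Differentiable ℂ (dslope f w) := by
  have := (Complex.differentiableOn_dslope (f := f) (s := Set.univ) (c := w) univ_mem).mpr
    hf.differentiableOn
  exact differentiableOn_univ.mp this

lemma analyticAt_of_differentiable {f : ℂ → ℂ} (hf : Differentiable ℂ f) (w : ℂ) :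
    AnalyticAt ℂ f w := hf.analyticAt w

lemma analyticOrderAt_sub_self (w : ℂ) : analyticOrderAt (fun z : ℂ => z - w) w = 1 := by
  apply AnalyticAt.analyticOrderAt_eq_one_of_zero_deriv_ne_zero (by fun_prop) (by simp)
  simp

lemma entire_div (s : ℕ) (w : ℂ) (f : ℂ → ℂ) (hf : Differentiable ℂ f)
    (h : (s : ℕ∞) ≤ analyticOrderAt f w) :
    ∃ g : ℂ → ℂ, Differentiable ℂ g ∧ ∀ z, f z = (z - w) ^ s * g z := by
  induction s generalizing f with
  | zero => exact ⟨f, hf, fun z => by simp⟩
  | succ s ih =>
    have hfw : f w = 0 := by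
      by_contra h0
      have : analyticOrderAt f w = 0 := analyticOrderAt_eq_zero.mpr (Or.inr h0)
      rw [this] at h
      simp at h
    set f₁ := dslope f w with hf₁
    have hd := differentiable_dslope hf w
    have e1 : ∀ z, f z = (z - w) * f₁ z := by
      intro z
      have := sub_smul_dslope f w z
      rw [smul_eq_mul, hfw, sub_zero] at this
      exact this.symm
    have e2 : analyticOrderAt f w = 1 + analyticOrderAt f₁ w := by
      have : f = (fun z => z - w) * f₁ := by ext z; exact e1 z
      rw [this, analyticOrderAt_mul (by fun_prop) (hd.analyticAt w), analyticOrderAt_sub_self]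
    have e3 : (s : ℕ∞) ≤ analyticOrderAt f₁ w := by
      rw [e2] at h
      push_cast at h
      rw [add_comm] at h
      exact (ENat.add_le_add_iff_left (by simp)).mp h
    obtain ⟨g, hg, hgz⟩ := ih f₁ hd e3
    refine ⟨g, hg, fun z => ?_⟩
    rw [e1, hgz, pow_succ]; ring

lemma entire_div_finset (s : ℕ) (T : Finset ℂ) (f : ℂ → ℂ) (hf : Differentiable ℂ f)
    (h : ∀ x ∈ T, (s : ℕ∞) ≤ analyticOrderAt f x) :
    ∃ g : ℂ → ℂ, Differentiable ℂ g ∧ ∀ z, f z = (∏ x ∈ T, (z - x) ^ s) * g z := by
  classical
  induction T using Finset.induction_on with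
  | empty => exact ⟨f, hf, fun z => by simp⟩
  | insert x T hx ih =>
    obtain ⟨g, hg, hgz⟩ := ih (fun y hy => h y (Finset.mem_insert_of_mem hy))
    have h1 := h x (Finset.mem_insert_self x T)
    have hP : Differentiable ℂ (fun z : ℂ => ∏ y ∈ T, (z - y) ^ s) := by fun_prop
    have e1 : f = (fun z : ℂ => ∏ y ∈ T, (z - y) ^ s) * g := by ext z; exact hgz z
    have e2 : analyticOrderAt (fun z : ℂ => ∏ y ∈ T, (z - y) ^ s) x = 0 := by
      rw [analyticOrderAt_eq_zero]
      right
      rw [Finset.prod_ne_zero_iff]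
      intro y hy
      apply pow_ne_zero
      rw [sub_ne_zero]
      rintro rfl
      exact hx hy
    rw [e1, analyticOrderAt_mul (hP.analyticAt x) (hg.analyticAt x), e2, zero_add] at h1
    obtain ⟨g', hg', hgz'⟩ := entire_div s x g hg h1
    refine ⟨g', hg', fun z => ?_⟩
    rw [hgz, hgz', Finset.prod_insert hx]; ring

end H667R3
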