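import Pool.Agent.H667R3.C1

/-! Schneider–Lang argument: numerical part. -/

open Filter
open scoped Topology Nat

noncomputable section

namespace H667R3

/-- final numerical contradiction -/
lemma final_ineq (D M W σ C : ℝ) (hD : 1 ≤ D) (hM : 1 ≤ M) (hW : 1 ≤ W) (hσ : 1 ≤ σ) (hC : 0 ≤ C)
    (s t : ℕ) (ht : 1 ≤ t) (hst : t ^ 2 ≤ s) (R : ℝ) (hR : 0 < R) (hR6 : R ^ 6 = s)
    (h : 1 ≤ D ^ (2 * (9 * t) + 3 * s) * (s ! : ℝ) * (2 * W) ^ (18 * s) *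
      (((9 * t : ℕ) : ℝ) ^ 2 * (81 * (t : ℝ) ^ 2 * (D ^ (2 * (9 * t) + 3 * t ^ 2) *
        ((t : ℝ) ^ 2) ^ (t ^ 2) * M ^ (2 * (9 * t) + t ^ 2)))
        * Real.exp (C * (1 + R ^ 3)) ^ (3 * (9 * t)) * (2 / R) ^ (18 * s)) * σ ^ (3 * (9 * t))) :
    (s : ℝ) ≤ 26244 * (D ^ 42 * M ^ 19 * (4 * W) ^ 18 * Real.exp (54 * C) * σ ^ 27) := by
  have hts : t ≤ s := by nlinarith
  have hs1 : 1 ≤ s := ht.trans hts
  have hsr : (1 : ℝ) ≤ s := by exact_mod_cast hs1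
  have htr : (1 : ℝ) ≤ t := by exact_mod_cast ht
  have htsr : (t : ℝ) ≤ s := by exact_mod_cast hts
  have ht2 : (t : ℝ) ^ 2 ≤ s := by exact_mod_cast hst
  set K : ℝ := D ^ 42 * M ^ 19 * (4 * W) ^ 18 * Real.exp (54 * C) * σ ^ 27 with hK
  have hK0 : 0 < K := by positivity
  -- bounds of the factors
  have b1 : D ^ (2 * (9 * t) + 3 * s) ≤ (D ^ 21) ^ s := by
    rw [← pow_mul]; exact pow_le_pow_right₀ hD (by omega)
  have b2 : (s ! : ℝ) ≤ (s : ℝ) ^ s := by exact_mod_cast Nat.factorial_le_pow s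
  have b3 : D ^ (2 * (9 * t) + 3 * t ^ 2) ≤ (D ^ 21) ^ s := by
    rw [← pow_mul]; exact pow_le_pow_right₀ hD (by omega)
  have b4 : ((t : ℝ) ^ 2) ^ (t ^ 2) ≤ (s : ℝ) ^ s := by
    calc ((t : ℝ) ^ 2) ^ (t ^ 2) ≤ (s : ℝ) ^ (t ^ 2) := by gcongr
      _ ≤ (s : ℝ) ^ s := pow_le_pow_right₀ hsr hst
  have b5 : M ^ (2 * (9 * t) + t ^ 2) ≤ (M ^ 19) ^ s := by
    rw [← pow_mul]; exact pow_le_pow_right₀ hM (by omega)
  have b6 : ((9 * t : ℕ) : ℝ) ^ 2 ≤ 81 * s := by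
    push_cast; nlinarith
  have b7 : 81 * (t : ℝ) ^ 2 ≤ 81 * s := by linarith
  have b8 : σ ^ (3 * (9 * t)) ≤ (σ ^ 27) ^ s := by
    rw [← pow_mul]; exact pow_le_pow_right₀ hσ (by omega)
  have hR3 : (t : ℝ) * R ^ 3 ≤ s := by
    have h1 : ((t : ℝ) * R ^ 3) ^ 2 ≤ (s : ℝ) ^ 2 := by
      calc ((t : ℝ) * R ^ 3) ^ 2 = (t : ℝ) ^ 2 * R ^ 6 := by ring
        _ ≤ (s : ℝ) * s := by rw [hR6]; gcongr
        _ = (s : ℝ) ^ 2 := by ring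
    exact le_of_sq_le_sq h1 (by positivity)
  have b9 : Real.exp (C * (1 + R ^ 3)) ^ (3 * (9 * t)) ≤ (Real.exp (54 * C)) ^ s := by
    rw [← Real.exp_nat_mul, ← Real.exp_nat_mul]
    apply Real.exp_le_exp.mpr
    push_cast
    have : 27 * (t : ℝ) * (1 + R ^ 3) ≤ 54 * s := by nlinarith
    calc 3 * (9 * (t : ℝ)) * (C * (1 + R ^ 3)) = C * (27 * t * (1 + R ^ 3)) := by ring
      _ ≤ C * (54 * s) := by gcongr
      _ = s * (54 * C) := by ring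
  have b10 : (2 * W) ^ (18 * s) * (2 / R) ^ (18 * s) = ((4 * W) ^ 18) ^ s / ((s : ℝ) ^ s) ^ 3 := by
    have e1 : ((s : ℝ) ^ s) ^ 3 = R ^ (18 * s) := by
      rw [← hR6]; rw [← pow_mul, ← pow_mul]; congr 1; ring
    rw [e1, ← mul_pow, ← pow_mul, ← div_pow]
    congr 1
    field_simp
    ring
  have hss : (0 : ℝ) < (s : ℝ) ^ s := by positivity
  have hKs : ∀ X : ℝ, (D ^ 42 * M ^ 19 * X * Real.exp (54 * C) * σ ^ 27) ^ s
      = (D ^ 21) ^ s * (D ^ 21) ^ s * (M ^ 19) ^ s * X ^ s * (Real.exp (54 * C)) ^ s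
        * (σ ^ 27) ^ s := by
    intro X
    rw [show D ^ 42 = D ^ 21 * D ^ 21 by ring]
    simp only [mul_pow]
  have main : 1 ≤ (81 * (s : ℝ)) * (81 * s) * (K ^ s) / (s : ℝ) ^ s := by
    calc (1 : ℝ) ≤ _ := h
      _ ≤ (D ^ 21) ^ s * (s : ℝ) ^ s * (2 * W) ^ (18 * s) *
      ((81 * s) * (81 * s * ((D ^ 21) ^ s * (s : ℝ) ^ s * (M ^ 19) ^ s))
        * (Real.exp (54 * C)) ^ s * (2 / R) ^ (18 * s)) * (σ ^ 27) ^ s := by
        gcongr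
      _ = (81 * (s : ℝ)) * (81 * s) * ((D ^ 21) ^ s * (D ^ 21) ^ s * (M ^ 19) ^ s *
          (Real.exp (54 * C)) ^ s * (σ ^ 27) ^ s) * ((s : ℝ) ^ s * (s : ℝ) ^ s) *
          ((2 * W) ^ (18 * s) * (2 / R) ^ (18 * s)) := by ring
      _ = (81 * (s : ℝ)) * (81 * s) * (K ^ s) / (s : ℝ) ^ s := by
        rw [b10, hK, hKs]
        generalize ((4 * W) ^ 18) ^ s = X
        field_simp
  rw [le_div_iff₀ hss, one_mul] at main
  have h4 : (s : ℝ) ^ 2 ≤ 4 ^ s := by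
    have : s < 2 ^ s := Nat.lt_two_pow_self
    have h5 : (s : ℝ) ≤ 2 ^ s := by exact_mod_cast this.le
    calc (s : ℝ) ^ 2 ≤ (2 ^ s) ^ 2 := by gcongr
      _ = 4 ^ s := by rw [← pow_mul, mul_comm, pow_mul]; norm_num
  have h5 : (6561 : ℝ) ≤ 6561 ^ s := le_self_pow₀ (by norm_num) (by omega)
  have h6 : (s : ℝ) ^ s ≤ (26244 * K) ^ s := by
    calc (s : ℝ) ^ s ≤ (81 * (s : ℝ)) * (81 * s) * (K ^ s) := main
      _ = 6561 * (s : ℝ) ^ 2 * K ^ s := by ring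
      _ ≤ 6561 ^ s * 4 ^ s * K ^ s := by gcongr
      _ = (26244 * K) ^ s := by rw [← mul_pow, ← mul_pow]; norm_num
  exact le_of_pow_le_pow_left₀ (by omega) (by positivity) h6

end H667R3
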