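import Pool.Agent.H667R3.C4

/-! Schneider–Lang argument over `ℚ(i)`: conclusion. -/

open Filter
open scoped Topology Nat

noncomputable section

namespace H667R3

namespace SLData

variable (d : SLData)

theorem main : ∃ (r : ℕ) (a : Fin r × Fin r → ℤ), a ≠ 0 ∧ ∀ z, d.Theta a z = 0 := by
  classical
  by_contra hcon
  push Not at hcon
  obtain ⟨M, hM, hMb⟩ := d.cauchy_bound
  obtain ⟨W, hWl⟩ : ∃ W : ℝ, ∀ l, ‖d.w l‖ + 1 ≤ W := by
    refine ⟨1 + ∑ l, ‖d.w l‖, fun l => ?_⟩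
    have := Finset.single_le_sum (f := fun l => ‖d.w l‖) (fun l _ => norm_nonneg _)
      (Finset.mem_univ l)
    linarith
  have hW1 : 1 ≤ W := by linarith [hWl 0, norm_nonneg (d.w 0)]
  obtain ⟨σ, hσl, hσ1⟩ : ∃ σ : ℝ, (∀ l, ‖d.S (d.w l)‖⁻¹ ≤ σ) ∧ 1 ≤ σ := by
    refine ⟨1 + ∑ l, ‖d.S (d.w l)‖⁻¹, fun l => ?_, ?_⟩
    · have := Finset.single_le_sum (f := fun l => ‖d.S (d.w l)‖⁻¹)
        (fun l _ => inv_nonneg.mpr (norm_nonneg _)) (Finset.mem_univ l)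
      linarith
    · have : 0 ≤ ∑ l, ‖d.S (d.w l)‖⁻¹ :=
        Finset.sum_nonneg fun l _ => inv_nonneg.mpr (norm_nonneg _)
      linarith
  obtain ⟨K, hK⟩ : ∃ K : ℝ, K = 26244 * ((d.D : ℝ) ^ 42 * M ^ 19 * (4 * W) ^ 18 *
    Real.exp (54 * d.C) * σ ^ 27) := ⟨_, rfl⟩
  obtain ⟨t, ht⟩ := exists_nat_gt (max (K + 1) ((2 * W) ^ 6 + 1))
  have ht1 : K < t := by
    have := le_max_left (K + 1) ((2 * W) ^ 6 + 1); linarith
  have ht2 : (2 * W) ^ 6 + 1 < t := by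
    have := le_max_right (K + 1) ((2 * W) ^ 6 + 1); linarith
  have htr : (1 : ℝ) < t := by
    have : 0 ≤ (2 * W) ^ 6 := by positivity
    linarith
  have ht0 : 1 ≤ t := by
    have : (1 : ℝ) ≤ t := htr.le
    exact_mod_cast this
  obtain ⟨a, ha0, ha1, ha2⟩ := d.siegel M hM hMb t ht0
  obtain ⟨z₀, hz₀⟩ := hcon (9 * t) a ha0
  -- minimal order
  obtain ⟨l₀, hl₀⟩ := Finite.exists_min (fun l => analyticOrderAt (d.Theta a) (d.w l))
  have hne := d.analyticOrderAt_Theta_ne_top a hz₀ (d.w l₀)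
  obtain ⟨s, hs'⟩ : ∃ s : ℕ, analyticOrderAt (d.Theta a) (d.w l₀) = s :=
    ⟨_, (ENat.natCast_toNat hne).symm⟩
  have hsl : ∀ l, (s : ℕ∞) ≤ analyticOrderAt (d.Theta a) (d.w l) := fun l => by
    rw [← hs']; exact hl₀ l
  have hns : t ^ 2 ≤ s := by
    have h1 : ((t ^ 2 : ℕ) : ℕ∞) ≤ analyticOrderAt (d.Phi a) (d.w l₀) := by
      rw [natCast_le_analyticOrderAt_iff_iteratedDeriv_eq_zero (d.analyticAt_Phi a (d.hSw l₀))]
      exact fun i hi => ha1 l₀ i hi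
    rw [← d.analyticOrderAt_Theta_eq a (d.hSw l₀), hs'] at h1
    exact_mod_cast h1
  have hts : t ≤ s := le_trans (Nat.le_self_pow (by norm_num) t) hns
  obtain ⟨x₀, hx₀⟩ : ∃ x₀, x₀ = d.w l₀ := ⟨_, rfl⟩
  rw [← hx₀] at hs'
  obtain ⟨T, hT⟩ : ∃ T : Finset ℂ, T = Finset.univ.image d.w := ⟨_, rfl⟩
  have hTcard : T.card = 18 := by
    rw [hT, Finset.card_image_of_injective _ d.hw]; simp
  have hx₀T : x₀ ∈ T := by
    rw [hx₀, hT]; exact Finset.mem_image_of_mem _ (Finset.mem_univ _)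
  have hTW : ∀ x ∈ T, ‖x‖ + 1 ≤ W := by
    intro x hx
    rw [hT] at hx
    obtain ⟨l, _, rfl⟩ := Finset.mem_image.mp hx
    exact hWl l
  obtain ⟨H, hHd, hH⟩ := entire_div_finset s T (d.Theta a) (d.differentiable_Theta a) (by
    intro x hx
    rw [hT] at hx
    obtain ⟨l, _, rfl⟩ := Finset.mem_image.mp hx
    exact hsl l)
  -- local expression of Phi near x₀
  obtain ⟨P, hP⟩ : ∃ P : ℂ → ℂ, P = fun z => ∏ x ∈ T.erase x₀, (z - x) ^ s := ⟨_, rfl⟩
  obtain ⟨g₀, hg₀⟩ : ∃ g₀ : ℂ → ℂ, g₀ = fun z => P z * H z / d.S z ^ (3 * (9 * t - 1)) := ⟨_, rfl⟩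
  have hSx₀ : d.S x₀ ≠ 0 := by rw [hx₀]; exact d.hSw l₀
  have hPd : Differentiable ℂ P := by rw [hP]; fun_prop
  have hg₀a : AnalyticAt ℂ g₀ x₀ := by
    rw [hg₀]
    exact ((hPd.analyticAt x₀).fun_mul (hHd.analyticAt x₀)).fun_div
      ((d.hS.analyticAt x₀).fun_pow _) (pow_ne_zero _ hSx₀)
  have hlocal : ∀ᶠ z in 𝓝 x₀, d.Phi a z = (z - x₀) ^ s * g₀ z := by
    have hopen : IsOpen {z | d.S z ≠ 0} := isOpen_ne_fun d.hS.continuous continuous_const
    filter_upwards [hopen.mem_nhds hSx₀] with z hz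
    have e1 := d.Theta_eq a (z := z) hz
    have e2 := hH z
    rw [← Finset.mul_prod_erase T _ hx₀T] at e2
    rw [e2] at e1
    simp only [hg₀, hP]
    have : d.S z ^ (3 * (9 * t - 1)) ≠ 0 := pow_ne_zero _ hz
    rw [← mul_div_assoc, eq_div_iff this]
    linear_combination -e1
  have hval := iteratedDeriv_of_eventually_eq hg₀a hlocal
  -- nonvanishing
  have hnz : iteratedDeriv s (d.Phi a) x₀ ≠ 0 := by
    intro h0
    have h1 : ((s + 1 : ℕ) : ℕ∞) ≤ analyticOrderAt (d.Phi a) x₀ := by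
      rw [natCast_le_analyticOrderAt_iff_iteratedDeriv_eq_zero (d.analyticAt_Phi a hSx₀)]
      intro i hi
      rcases Nat.lt_succ_iff_lt_or_eq.mp hi with h | h
      · have h2 : ((s : ℕ) : ℕ∞) ≤ analyticOrderAt (d.Phi a) x₀ := by
          rw [← d.analyticOrderAt_Theta_eq a hSx₀, hs']
        exact (natCast_le_analyticOrderAt_iff_iteratedDeriv_eq_zero
          (d.analyticAt_Phi a hSx₀)).mp h2 i h
      · rw [h]; exact h0
    rw [← d.analyticOrderAt_Theta_eq a hSx₀, hs'] at h1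
    have : s + 1 ≤ s := by exact_mod_cast h1
    omega
  -- arithmetic lower bound
  have hDr : (1 : ℝ) ≤ d.D := by exact_mod_cast d.hD
  have hlow : 1 ≤ (d.D : ℝ) ^ (2 * (9 * t) + 3 * s) * ‖iteratedDeriv s (d.Phi a) x₀‖ := by
    have hij : ∀ x : Fin (9 * t) × Fin (9 * t), (x.1 : ℕ) + (x.2 : ℕ) ≤ 2 * (9 * t) := fun x => by
      have := x.1.2; have := x.2.2; omega
    choose g hg using fun (x : Fin (9 * t) × Fin (9 * t)) => d.hint' (9 * t) l₀ x.1 x.2 (hij x) s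
    rw [← hx₀] at hg
    obtain ⟨G, hG⟩ : ∃ G : GaussianInt,
      G = ∑ x : Fin (9 * t) × Fin (9 * t), (a x : GaussianInt) * g x := ⟨_, rfl⟩
    have h1 : (d.D : ℂ) ^ (2 * (9 * t) + 3 * s) * iteratedDeriv s (d.Phi a) x₀ = G.toComplex := by
      rw [d.iteratedDeriv_Phi a hSx₀, Finset.mul_sum, hG, map_sum]
      refine Finset.sum_congr rfl fun x _ => ?_
      rw [map_mul, map_intCast, ← hg x]
      ring
    have hD0 : (d.D : ℂ) ≠ 0 := by
      have := d.hD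
      exact_mod_cast (by omega : d.D ≠ 0)
    have h2 : G ≠ 0 := by
      intro h
      rw [h, map_zero] at h1
      exact (mul_ne_zero (pow_ne_zero _ hD0) hnz) h1
    have h3 := one_le_norm_gaussian h2
    rwa [← h1, norm_mul, norm_pow, Complex.norm_natCast] at h3
  -- upper bound for H
  have hsr : (1 : ℝ) ≤ s := by
    have : 1 ≤ s := ht0.trans hts
    exact_mod_cast this
  obtain ⟨R, hR0, hR6⟩ : ∃ R : ℝ, 0 < R ∧ R ^ 6 = s := by
    refine ⟨(s : ℝ) ^ ((1 : ℝ) / 6), Real.rpow_pos_of_pos (by linarith only [hsr]) _, ?_⟩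
    rw [← Real.rpow_natCast, ← Real.rpow_mul (by linarith only [hsr])]; norm_num
  have hR2W : 2 * W ≤ R := by
    have h1 : (2 * W) ^ 6 ≤ R ^ 6 := by
      rw [hR6]
      have h2 : (t : ℝ) ≤ s := by exact_mod_cast hts
      linarith only [h2, ht2]
    exact le_of_pow_le_pow_left₀ (by norm_num) hR0.le h1
  obtain ⟨N, hN⟩ : ∃ N : ℝ, N = 81 * (t : ℝ) ^ 2 * ((d.D : ℝ) ^ (2 * (9 * t) + 3 * t ^ 2) *
        ((t : ℝ) ^ 2) ^ (t ^ 2) * M ^ (2 * (9 * t) + t ^ 2)) := ⟨_, rfl⟩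
  rw [← hN] at ha2
  have hN0 : 0 ≤ N := by
    rw [hN]
    have hM0 : 0 ≤ M := by linarith only [hM]
    clear * - hM0
    positivity
  obtain ⟨Q, hQ⟩ : ∃ Q : ℝ, Q = Real.exp (d.C * (1 + R ^ 3)) := ⟨_, rfl⟩
  have hHb : ∀ z, ‖z‖ = R → ‖H z‖ ≤ ((9 * t : ℕ) : ℝ) ^ 2 * N * Q ^ (3 * (9 * t)) * (2 / R) ^ (18 * s) := by
    intro z hz
    have h1 := d.norm_Theta_le a N ha2 z
    rw [hz, ← hQ] at h1
    rw [hH z, norm_mul] at h1
    have h2 : (R / 2) ^ (18 * s) ≤ ‖∏ x ∈ T, (z - x) ^ s‖ := by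
      rw [norm_prod]
      calc (R / 2) ^ (18 * s) = ∏ x ∈ T, (R / 2) ^ s := by
            rw [Finset.prod_const, hTcard, ← pow_mul]; congr 1; ring
        _ ≤ ∏ x ∈ T, ‖(z - x) ^ s‖ := by
            apply Finset.prod_le_prod
            · intro x _; positivity
            · intro x hx
              rw [norm_pow]
              have h3 : R / 2 ≤ ‖z - x‖ := by
                have := norm_sub_norm_le z x
                have := hTW x hx
                rw [hz] at *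
                linarith
              gcongr
    have h3 : 0 < (R / 2) ^ (18 * s) := by positivity
    have h4 : (R / 2) ^ (18 * s) * ‖H z‖ ≤ ((9 * t : ℕ) : ℝ) ^ 2 * N * Q ^ (3 * (9 * t)) :=
      (mul_le_mul_of_nonneg_right h2 (norm_nonneg _)).trans h1
    have h5 : (2 / R) ^ (18 * s) = ((R / 2) ^ (18 * s))⁻¹ := by
      rw [← inv_pow, inv_div]
    rw [h5, ← div_eq_mul_inv, le_div_iff₀ h3]
    linarith
  have hHx : ‖H x₀‖ ≤ ((9 * t : ℕ) : ℝ) ^ 2 * N * Q ^ (3 * (9 * t)) * (2 / R) ^ (18 * s) := by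
    apply Complex.norm_le_of_forall_mem_frontier_norm_le (U := Metric.ball (0 : ℂ) R)
      Metric.isBounded_ball hHd.diffContOnCl
    · intro z hz
      apply hHb
      rw [frontier_ball _ hR0.ne'] at hz
      simpa using hz
    · apply subset_closure
      rw [Metric.mem_ball, dist_zero_right]
      have := hWl l₀
      rw [← hx₀] at this
      linarith
  have hPx : ‖P x₀‖ ≤ (2 * W) ^ (18 * s) := by
    simp only [hP]
    rw [norm_prod]
    calc ∏ x ∈ T.erase x₀, ‖(x₀ - x) ^ s‖ ≤ ∏ x ∈ T.erase x₀, (2 * W) ^ s := by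
          apply Finset.prod_le_prod
          · intro x _; positivity
          · intro x hx
            rw [norm_pow]
            have h3 : ‖x₀ - x‖ ≤ 2 * W := by
              have h4 := norm_sub_le x₀ x
              have h5 := hTW x (Finset.mem_of_mem_erase hx)
              have h6 := hTW x₀ hx₀T
              linarith
            gcongr
      _ = (2 * W) ^ (s * 17) := by
          rw [Finset.prod_const, Finset.card_erase_of_mem hx₀T, hTcard, ← pow_mul]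
      _ ≤ (2 * W) ^ (18 * s) := pow_le_pow_right₀ (by linarith) (by omega)
  have hSinv : ‖(d.S x₀ ^ (3 * (9 * t - 1)))‖⁻¹ ≤ σ ^ (3 * (9 * t)) := by
    rw [norm_pow, ← inv_pow]
    calc ‖d.S x₀‖⁻¹ ^ (3 * (9 * t - 1)) ≤ σ ^ (3 * (9 * t - 1)) := by
          have := hσl l₀
          rw [← hx₀] at this
          gcongr
      _ ≤ σ ^ (3 * (9 * t)) := pow_le_pow_right₀ hσ1 (by omega)
  have hup : ‖iteratedDeriv s (d.Phi a) x₀‖ ≤ (s ! : ℝ) * ((2 * W) ^ (18 * s) *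
      (((9 * t : ℕ) : ℝ) ^ 2 * N * Q ^ (3 * (9 * t)) * (2 / R) ^ (18 * s)) * σ ^ (3 * (9 * t))) := by
    rw [hval, norm_mul]
    have h1 : ‖(s ! : ℂ)‖ = (s ! : ℝ) := by simp
    rw [h1]
    have hQ0 : 0 < Q := by rw [hQ]; exact Real.exp_pos _
    have hW0 : 0 ≤ W := by linarith only [hW1]
    gcongr
    simp only [hg₀]
    rw [norm_div, norm_mul, div_eq_mul_inv]
    gcongr
  have hfin := final_ineq d.D M W σ d.C hDr hM hW1 hσ1 d.hC s t ht0 hns R hR0 hR6 (by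
    rw [← hN, ← hQ]
    calc (1 : ℝ) ≤ (d.D : ℝ) ^ (2 * (9 * t) + 3 * s) * ‖iteratedDeriv s (d.Phi a) x₀‖ := hlow
      _ ≤ (d.D : ℝ) ^ (2 * (9 * t) + 3 * s) * ((s ! : ℝ) * ((2 * W) ^ (18 * s) *
      (((9 * t : ℕ) : ℝ) ^ 2 * N * Q ^ (3 * (9 * t)) * (2 / R) ^ (18 * s)) * σ ^ (3 * (9 * t)))) := by
        gcongr
      _ = _ := by ring)
  have h1 : (t : ℝ) ≤ s := by exact_mod_cast hts
  rw [← hK] at hfin
  linarith only [hfin, h1, ht1]

end SLData

end H667R3
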