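import Pool.Agent.H667R3.C5

/-! Integrality of the derivatives. -/

open Filter
open scoped Topology Nat

noncomputable section

namespace H667R3

/-- the ring `ℤ[i]` inside `ℂ` -/
def Zi : Subring ℂ := GaussianInt.toComplex.range

lemma mem_Zi {x : ℂ} : x ∈ Zi ↔ ∃ g : GaussianInt, g.toComplex = x := RingHom.mem_range

lemma natCast_mem_Zi (n : ℕ) : (n : ℂ) ∈ Zi := natCast_mem Zi n

lemma I_mem_Zi : Complex.I ∈ Zi := by
  rw [mem_Zi]; exact ⟨⟨0, 1⟩, by simp [GaussianInt.toComplex_def]⟩

/-- the monomial functions -/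
def mon (X Y F W : ℂ → ℂ) (a b j e : ℕ) (z : ℂ) : ℂ := X z ^ a * Y z ^ b * F z ^ j * W z ^ e

lemma integrality {X Y F W : ℂ → ℂ} {w κ y₀ c : ℂ} (D : ℕ)
    (hXa : AnalyticAt ℂ X w) (hYa : AnalyticAt ℂ Y w) (hFa : AnalyticAt ℂ F w)
    (hWa : AnalyticAt ℂ W w)
    (hd : ∀ᶠ z in 𝓝 w, HasDerivAt X (Y z) z ∧ HasDerivAt Y (6 * X z ^ 2 - κ) z ∧
      HasDerivAt F (F z * ((Y z - y₀) * W z / 2 - c)) z ∧ HasDerivAt W (-(Y z * W z ^ 2)) z)
    (hX : (D : ℂ) * X w ∈ Zi) (hY : (D : ℂ) * Y w ∈ Zi) (hF : (D : ℂ) * F w ∈ Zi)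
    (hW : (D : ℂ) * W w ∈ Zi) (hκ : (D : ℂ) * κ ∈ Zi) (hy : (D : ℂ) * (y₀ / 2) ∈ Zi)
    (hc : (D : ℂ) * c ∈ Zi) (h2 : (D : ℂ) * (1 / 2) ∈ Zi) (k : ℕ) :
    ∀ a b j e : ℕ, (D : ℂ) ^ (a + b + j + e + 3 * k) * iteratedDeriv k (mon X Y F W a b j e) w ∈ Zi := by
  have hmona : ∀ a b j e, AnalyticAt ℂ (mon X Y F W a b j e) w := by
    intro a b j e
    unfold mon
    fun_prop
  induction k with
  | zero =>
    intro a b j e
    simp only [mul_zero, add_zero, iteratedDeriv_zero, mon]
    have : (D : ℂ) ^ (a + b + j + e) * (X w ^ a * Y w ^ b * F w ^ j * W w ^ e)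
        = (D * X w) ^ a * (D * Y w) ^ b * (D * F w) ^ j * (D * W w) ^ e := by
      rw [mul_pow, mul_pow, mul_pow, mul_pow, pow_add, pow_add, pow_add]; ring
    rw [this]
    exact mul_mem (mul_mem (mul_mem (pow_mem hX _) (pow_mem hY _)) (pow_mem hF _)) (pow_mem hW _)
  | succ k ih =>
    intro a b j e
    rw [iteratedDeriv_succ']
    set co : Fin 6 → ℂ := ![(a : ℂ), 6 * b, -(b * κ), j * (1 / 2) - e, -(j * (y₀ / 2)), -(j * c)]
      with hco
    set fn : Fin 6 → ℂ → ℂ := ![mon X Y F W (a - 1) (b + 1) j e, mon X Y F W (a + 2) (b - 1) j e,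
      mon X Y F W a (b - 1) j e, mon X Y F W a (b + 1) j (e + 1), mon X Y F W a b j (e + 1),
      mon X Y F W a b j e] with hfn
    have hfna : ∀ i, AnalyticAt ℂ (fn i) w := by
      intro i
      fin_cases i <;> exact hmona _ _ _ _
    have hder : deriv (mon X Y F W a b j e) =ᶠ[𝓝 w] fun z => ∑ i, co i * fn i z := by
      filter_upwards [hd] with z hz
      obtain ⟨h1, h2, h3, h4⟩ := hz
      have h5 := (((h1.fun_pow a).fun_mul (h2.fun_pow b)).fun_mul (h3.fun_pow j)).fun_mul
        (h4.fun_pow e)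
      have h6 : HasDerivAt (mon X Y F W a b j e) _ z := h5
      rw [h6.deriv, Fin.sum_univ_six]
      simp only [hco, hfn]
      simp only [Matrix.cons_val]
      simp only [mon]
      have ea : (a : ℂ) * X z ^ (a - 1) * Y z * Y z ^ b = a * (X z ^ (a - 1) * Y z ^ (b + 1)) := by
        ring
      have eb : (b : ℂ) * Y z ^ (b - 1) * 1 = b * Y z ^ (b - 1) := by ring
      have ej : (j : ℂ) * F z ^ (j - 1) * F z = j * F z ^ j := by
        rcases Nat.eq_zero_or_pos j with h | h
        · simp [h]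
        · obtain ⟨j', rfl⟩ : ∃ j', j = j' + 1 := ⟨j - 1, by omega⟩
          simp only [Nat.add_sub_cancel]; ring
      have ee : (e : ℂ) * W z ^ (e - 1) * W z ^ 2 = e * W z ^ (e + 1) := by
        rcases Nat.eq_zero_or_pos e with h | h
        · simp [h]
        · obtain ⟨e', rfl⟩ : ∃ e', e = e' + 1 := ⟨e - 1, by omega⟩
          simp only [Nat.add_sub_cancel]; ring
      linear_combination (X z ^ a * Y z ^ b * W z ^ e * ((Y z - y₀) * W z / 2 - c)) * ej
        - (X z ^ a * Y z ^ b * F z ^ j * Y z) * ee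
    rw [hder.iteratedDeriv_eq, iteratedDeriv_fun_sum
      (fun i _ => (analyticAt_const.fun_mul (hfna i)).contDiffAt), Finset.mul_sum]
    refine sum_mem fun i _ => ?_
    rw [iteratedDeriv_const_mul_field]
    have hDn : ∀ n : ℕ, (D : ℂ) ^ n ∈ Zi := fun n => pow_mem (natCast_mem_Zi D) n
    fin_cases i
    · -- a
      have := mul_mem (mul_mem (hDn 3) (natCast_mem_Zi a)) (ih (a - 1) (b + 1) j e)
      rcases Nat.eq_zero_or_pos a with h | h
      · have h0 : co 0 = 0 := by simp [hco, h]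
        simp only [Fin.zero_eta, h0, zero_mul, mul_zero]
        exact zero_mem _
      · convert this using 1
        have e1 : co 0 = a := rfl
        have e2 : fn 0 = mon X Y F W (a - 1) (b + 1) j e := rfl
        have e3 : a + b + j + e + 3 * (k + 1) = 3 + (a - 1 + (b + 1) + j + e + 3 * k) := by omega
        simp only [Fin.zero_eta]
        rw [e1, e2, e3, pow_add]; ring
    · have := mul_mem (mul_mem (hDn 2) (mul_mem (natCast_mem_Zi 6) (natCast_mem_Zi b)))
        (ih (a + 2) (b - 1) j e)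
      rcases Nat.eq_zero_or_pos b with h | h
      · have h0 : co 1 = 0 := by simp [hco, h]
        simp only [Fin.mk_one, h0, zero_mul, mul_zero]
        exact zero_mem _
      · convert this using 1
        have e1 : co 1 = 6 * b := rfl
        have e2 : fn 1 = mon X Y F W (a + 2) (b - 1) j e := rfl
        have e3 : a + b + j + e + 3 * (k + 1) = 2 + (a + 2 + (b - 1) + j + e + 3 * k) := by omega
        simp only [Fin.mk_one]
        rw [e1, e2, e3, pow_add]; push_cast; ring
    · have := mul_mem (mul_mem (hDn 3) (mul_mem hκ (neg_mem (natCast_mem_Zi b))))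
        (ih a (b - 1) j e)
      rcases Nat.eq_zero_or_pos b with h | h
      · have h0 : co 2 = 0 := by simp [hco, h]
        simp only [Fin.reduceFinMk, h0, zero_mul, mul_zero]
        exact zero_mem _
      · convert this using 1
        have e1 : co 2 = -(b * κ) := rfl
        have e2 : fn 2 = mon X Y F W a (b - 1) j e := rfl
        have e3 : a + b + j + e + 3 * (k + 1) = 4 + (a + (b - 1) + j + e + 3 * k) := by omega
        simp only [Fin.reduceFinMk]
        rw [e1, e2, e3, pow_add]; ring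
    · have h7 : (D : ℂ) * (j * (1 / 2) - e) ∈ Zi := by
        have := sub_mem (mul_mem (natCast_mem_Zi j) h2) (mul_mem (natCast_mem_Zi D) (natCast_mem_Zi e))
        convert this using 1; ring
      have := mul_mem h7 (ih a (b + 1) j (e + 1))
      convert this using 1
      have e1 : co 3 = j * (1 / 2) - e := rfl
      have e2 : fn 3 = mon X Y F W a (b + 1) j (e + 1) := rfl
      have e3 : a + b + j + e + 3 * (k + 1) = 1 + (a + (b + 1) + j + (e + 1) + 3 * k) := by omega
      simp only [Fin.reduceFinMk]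
      rw [e1, e2, e3, pow_add]; ring
    · have := mul_mem (mul_mem (hDn 1) (mul_mem (neg_mem (natCast_mem_Zi j)) hy)) (ih a b j (e + 1))
      convert this using 1
      have e1 : co 4 = -(j * (y₀ / 2)) := rfl
      have e2 : fn 4 = mon X Y F W a b j (e + 1) := rfl
      have e3 : a + b + j + e + 3 * (k + 1) = 2 + (a + b + j + (e + 1) + 3 * k) := by omega
      simp only [Fin.reduceFinMk]
      rw [e1, e2, e3, pow_add]; ring
    · have := mul_mem (mul_mem (hDn 2) (mul_mem (neg_mem (natCast_mem_Zi j)) hc)) (ih a b j e)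
      convert this using 1
      have e1 : co 5 = -(j * c) := rfl
      have e2 : fn 5 = mon X Y F W a b j e := rfl
      have e3 : a + b + j + e + 3 * (k + 1) = 3 + (a + b + j + e + 3 * k) := by omega
      simp only [Fin.reduceFinMk]
      rw [e1, e2, e3, pow_add]; ring

end H667R3
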