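import Pool.Agent.H667R3.D1

/-! Application of Schneider–Lang to `℘` and Serre's function. -/

open Module Filter
open scoped Topology Nat PeriodPair

noncomputable section

namespace H667R3

open Complex (I)

/-- `F_c(z) = f_q(z) e^{-cz}` -/
def Fc (L : PeriodPair) (q c z : ℂ) : ℂ := serreF L q z * Complex.exp (-(c * z))

lemma Fc_add_coe (L : PeriodPair) {l : ℂ} (hl : l ∈ L.lattice) (q c z : ℂ) :
    Fc L q c (z + l) = Complex.exp (-(l * zeta L q - eta L l * q + c * l)) * Fc L q c z := by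
  rw [Fc, Fc, serreF_add_coe L hl]
  have e1 : Complex.exp (-(c * (z + l))) = Complex.exp (-(c * z)) * Complex.exp (-(c * l)) := by
    rw [← Complex.exp_add]; congr 1; ring
  have e2 : Complex.exp (-(l * zeta L q - eta L l * q + c * l))
      = Complex.exp (eta L l * q - zeta L q * l) * Complex.exp (-(c * l)) := by
    rw [← Complex.exp_add]; congr 1; ring
  rw [e1, e2]; ring

lemma Fc_ne_zero (L : PeriodPair) {q c z : ℂ} (hz : z ∉ L.lattice) (hq : q ∉ L.lattice)
    (hzq : z + q ∉ L.lattice) : Fc L q c z ≠ 0 :=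
  mul_ne_zero (serreF_ne_zero L hz hq hzq) (Complex.exp_ne_zero _)

/-- entire numerator of `F_c`: `B(z) = σ(z) F_c(z)` -/
def Bfun (L : PeriodPair) (q c z : ℂ) : ℂ :=
  (sigma L q)⁻¹ * (sigma L (z + q) * Complex.exp (-(zeta L q + c) * z))

lemma Fc_eq (L : PeriodPair) (q c z : ℂ) : Fc L q c z = Bfun L q c z / sigma L z := by
  rw [Fc, serreF, Bfun]
  have : Complex.exp (-(zeta L q + c) * z)
      = Complex.exp (-(zeta L q * z)) * Complex.exp (-(c * z)) := by
    rw [← Complex.exp_add]; congr 1; ring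
  rw [this]
  by_cases h : sigma L q = 0
  · simp [h]
  by_cases h' : sigma L z = 0
  · simp [h']
  field_simp

lemma differentiable_Bfun (L : PeriodPair) (q c : ℂ) : Differentiable ℂ (Bfun L q c) := by
  unfold Bfun
  have h := differentiable_sigma L
  have h2 : Differentiable ℂ (fun z => sigma L (z + q)) :=
    h.comp (differentiable_id.add_const q)
  fun_prop

/-- entire numerator of `℘`: `A(z) = σ(z)² ℘(z)` -/
def Afun (L : PeriodPair) (q z : ℂ) : ℂ :=
  ℘[L] q * (sigma L z * sigma L z) - (sigma L q ^ 2)⁻¹ * (sigma L (z + q) * sigma L (z + -q))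

lemma wp_eq_Afun (L : PeriodPair) {q z : ℂ} (hz : z ∉ L.lattice) (hq : q ∉ L.lattice) :
    ℘[L] z = Afun L q z / sigma L z ^ 2 := by
  have h1 := wp_sub_wp L hz hq
  have s1 := sigma_ne_zero L hz
  have s2 := sigma_ne_zero L hq
  rw [Afun, ← sub_eq_add_neg z q]
  have h2 : ℘[L] z = ℘[L] q + -(sigma L (z + q) * sigma L (z - q)) / (sigma L z ^ 2 * sigma L q ^ 2) := by
    rw [← h1]; ring
  rw [h2]
  field_simp
  ring

lemma differentiable_Afun (L : PeriodPair) (q : ℂ) : Differentiable ℂ (Afun L q) := by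
  unfold Afun
  have h := differentiable_sigma L
  have h2 : Differentiable ℂ (fun z => sigma L (z + q)) :=
    h.comp (differentiable_id.add_const q)
  have h3 : Differentiable ℂ (fun z => sigma L (z + -q)) :=
    h.comp (differentiable_id.add_const (-q))
  fun_prop

lemma hasDerivAt_Fc (L : PeriodPair) {q c z : ℂ} (hz : z ∉ L.lattice) (hq : q ∉ L.lattice)
    (hzq : z + q ∉ L.lattice) (hzq' : z - q ∉ L.lattice) :
    HasDerivAt (Fc L q c) (Fc L q c z * ((℘'[L] z - ℘'[L] q) * (℘[L] z - ℘[L] q)⁻¹ / 2 - c)) z := by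
  have s1 := sigma_ne_zero L hz
  have s2 := sigma_ne_zero L hq
  have h3 : ℘[L] z - ℘[L] q ≠ 0 := by
    rw [sub_ne_zero, Ne, wp_eq_iff L hz hq]
    tauto
  have d1 : HasDerivAt (fun x => sigma L (x + q)) (zeta L (z + q) * sigma L (z + q)) z :=
    (hasDerivAt_sigma L hzq).comp_add_const z q
  have d2 : HasDerivAt (fun x => Complex.exp (-(zeta L q + c) * x))
      (Complex.exp (-(zeta L q + c) * z) * (-(zeta L q + c))) z := by
    have : HasDerivAt (fun x : ℂ => -(zeta L q + c) * x) (-(zeta L q + c)) z := by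
      simpa using (hasDerivAt_id z).const_mul (-(zeta L q + c))
    exact this.cexp
  have d3 := ((d1.fun_mul d2).const_mul (sigma L q)⁻¹).fun_div (hasDerivAt_sigma L hz) s1
  have e : Fc L q c = fun x => (sigma L q)⁻¹ * (sigma L (x + q) * Complex.exp (-(zeta L q + c) * x))
      / sigma L x := by
    ext x; rw [Fc_eq, Bfun]
  rw [e]
  refine d3.congr_deriv ?_
  rw [zeta_add L hz hq hzq hzq']
  field_simp
  ring

/-- The Schneider–Lang theorem applied to `℘` and `F_c`. -/
theorem no_alg (L : PeriodPair) (q c z₀ : ℂ) (hg₂ : L.g₂ / 2 ∈ Ki) (hq : q ∉ L.lattice)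
    (hPq : ℘[L] q ∈ Ki) (hPq' : ℘'[L] q ∈ Ki) (hc : c ∈ Ki)
    (hnt : ∀ n : ℕ, 0 < n → (n : ℂ) * z₀ ∉ L.lattice)
    (hntq : ∀ n : ℕ, 0 < n → (n : ℂ) * z₀ + q ∉ L.lattice)
    (hntq' : ∀ n : ℕ, 0 < n → (n : ℂ) * z₀ - q ∉ L.lattice)
    (hP : ∀ n : ℕ, 0 < n → ℘[L] (n * z₀) ∈ Ki)
    (hP' : ∀ n : ℕ, 0 < n → ℘'[L] (n * z₀) ∈ Ki)
    (hF : ∀ n : ℕ, 0 < n → Fc L q c (n * z₀) ∈ Ki)
    (l : ℂ) (hl : l ∈ L.lattice)
    (hχ : ∀ n : ℕ, 0 < n → Complex.exp (-(l * zeta L q - eta L l * q + c * l)) ^ n ≠ 1) :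
    False := by
  classical
  set w : Fin 18 → ℂ := fun k => (((k : ℕ) + 1 : ℕ) : ℂ) * z₀ with hw
  have hz₀ : z₀ ≠ 0 := by
    rintro rfl
    exact hnt 1 one_pos (by simp)
  have hwinj : Function.Injective w := by
    intro k k' h
    simp only [hw] at h
    have h2 := mul_right_cancel₀ hz₀ h
    have h3 : (k : ℕ) + 1 = (k' : ℕ) + 1 := by exact_mod_cast h2
    exact Fin.ext (by omega)
  set W : ℂ → ℂ := fun z => (℘[L] z - ℘[L] q)⁻¹ with hW
  have hKi2 : (1 / 2 : ℂ) ∈ Ki := ⟨2, two_pos, by norm_num⟩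
  obtain ⟨D, hD, hDT⟩ := exists_common_denominator
    (({L.g₂ / 2, ℘'[L] q / 2, c, 1 / 2} : Finset ℂ) ∪
      (Finset.univ.image (fun k : Fin 18 => ℘[L] (w k))) ∪
      (Finset.univ.image (fun k : Fin 18 => ℘'[L] (w k))) ∪
      (Finset.univ.image (fun k : Fin 18 => Fc L q c (w k))) ∪
      (Finset.univ.image (fun k : Fin 18 => W (w k)))) (by
    intro x hx
    simp only [Finset.mem_union, Finset.mem_insert, Finset.mem_singleton, Finset.mem_image,
      Finset.mem_univ, true_and] at hx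
    rcases hx with (((( rfl | rfl | rfl | rfl) | ⟨k, rfl⟩) | ⟨k, rfl⟩) | ⟨k, rfl⟩) | ⟨k, rfl⟩
    · exact hg₂
    · have := mul_mem hPq' hKi2
      convert this using 1; ring
    · exact hc
    · exact hKi2
    · exact hP _ (by omega)
    · exact hP' _ (by omega)
    · exact hF _ (by omega)
    · exact inv_mem (sub_mem (hP _ (by omega)) hPq))
  have hint : ∀ (k : Fin 18) (i j m : ℕ), (D : ℂ) ^ (i + j + 3 * m) *
      iteratedDeriv m (fun z => (Afun L q z / sigma L z ^ 2) ^ i * (Bfun L q c z / sigma L z) ^ j)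
        (w k) ∈ Zi := by
    intro k i j m
    have hk : (0 : ℕ) < (k : ℕ) + 1 := by omega
    have hwk : w k ∉ L.lattice := hnt _ hk
    have hwkq : w k + q ∉ L.lattice := hntq _ hk
    have hwkq' : w k - q ∉ L.lattice := hntq' _ hk
    have hwk2 : 2 * w k ∉ L.lattice := by
      have := hnt (2 * ((k : ℕ) + 1)) (by omega)
      simp only [hw]
      convert this using 2
      push_cast; ring
    have hev : ∀ᶠ z in 𝓝 (w k), 2 * z ∉ L.lattice ∧ z + q ∉ L.lattice ∧ z - q ∉ L.lattice := by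
      have o1 : ∀ᶠ x in 𝓝 (w k), x + q ∉ L.lattice := by
        have : IsOpen ((fun x => x + q) ⁻¹' (L.lattice : Set ℂ)ᶜ) :=
          (isOpen_compl L).preimage (by fun_prop)
        exact this.mem_nhds hwkq
      have o2 : ∀ᶠ x in 𝓝 (w k), x - q ∉ L.lattice := by
        have : IsOpen ((fun x => x - q) ⁻¹' (L.lattice : Set ℂ)ᶜ) :=
          (isOpen_compl L).preimage (by fun_prop)
        exact this.mem_nhds hwkq'
      filter_upwards [(isOpen_two L).mem_nhds hwk2, o1, o2] with z h1 h2 h3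
      exact ⟨h1, h2, h3⟩
    have hd : ∀ᶠ z in 𝓝 (w k), HasDerivAt ℘[L] (℘'[L] z) z ∧
        HasDerivAt ℘'[L] (6 * ℘[L] z ^ 2 - L.g₂ / 2) z ∧
        HasDerivAt (Fc L q c) (Fc L q c z * ((℘'[L] z - ℘'[L] q) * W z / 2 - c)) z ∧
        HasDerivAt W (-(℘'[L] z * W z ^ 2)) z := by
      filter_upwards [hev] with z hz
      obtain ⟨h1, h2, h3⟩ := hz
      have hz' := two_mul_notMem_of L h1
      have h4 : ℘[L] z - ℘[L] q ≠ 0 := by
        rw [sub_ne_zero, Ne, wp_eq_iff L hz' hq]
        tauto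
      refine ⟨hasDerivAt_weierstrassP L hz', hasDerivAt_wp' L h1, hasDerivAt_Fc L hz' hq h2 h3, ?_⟩
      have := ((hasDerivAt_weierstrassP L hz').sub_const (℘[L] q)).fun_inv h4
      refine this.congr_deriv ?_
      simp only [hW]
      field_simp
    have hdX : ∀ᶠ z in 𝓝 (w k), DifferentiableAt ℂ ℘[L] z := hd.mono fun z h => h.1.differentiableAt
    have hdY : ∀ᶠ z in 𝓝 (w k), DifferentiableAt ℂ ℘'[L] z :=
      hd.mono fun z h => h.2.1.differentiableAt
    have hdF : ∀ᶠ z in 𝓝 (w k), DifferentiableAt ℂ (Fc L q c) z :=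
      hd.mono fun z h => h.2.2.1.differentiableAt
    have hdW : ∀ᶠ z in 𝓝 (w k), DifferentiableAt ℂ W z :=
      hd.mono fun z h => h.2.2.2.differentiableAt
    have hmem : ∀ x ∈ ({L.g₂ / 2, ℘'[L] q / 2, c, 1 / 2} : Finset ℂ), (D : ℂ) * x ∈ Zi := by
      intro x hx
      apply hDT
      simp only [Finset.mem_union]
      exact Or.inl (Or.inl (Or.inl (Or.inl hx)))
    have key := integrality D (Complex.analyticAt_iff_eventually_differentiableAt.mpr hdX)
      (Complex.analyticAt_iff_eventually_differentiableAt.mpr hdY)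
      (Complex.analyticAt_iff_eventually_differentiableAt.mpr hdF)
      (Complex.analyticAt_iff_eventually_differentiableAt.mpr hdW) hd
      (hDT _ (by
        simp only [Finset.mem_union]
        exact Or.inl (Or.inl (Or.inl (Or.inr (Finset.mem_image_of_mem _ (Finset.mem_univ k)))))))
      (hDT _ (by
        simp only [Finset.mem_union]
        exact Or.inl (Or.inl (Or.inr (Finset.mem_image_of_mem _ (Finset.mem_univ k))))))
      (hDT _ (by
        simp only [Finset.mem_union]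
        exact Or.inl (Or.inr (Finset.mem_image_of_mem _ (Finset.mem_univ k)))))
      (hDT _ (by
        simp only [Finset.mem_union]
        exact Or.inr (Finset.mem_image_of_mem _ (Finset.mem_univ k))))
      (hmem _ (by simp)) (hmem _ (by simp)) (hmem _ (by simp)) (hmem _ (by simp)) m i 0 j 0
    have heq : (fun z => (Afun L q z / sigma L z ^ 2) ^ i * (Bfun L q c z / sigma L z) ^ j)
        =ᶠ[𝓝 (w k)] mon ℘[L] ℘'[L] (Fc L q c) W i 0 j 0 := by
      filter_upwards [(isOpen_compl L).mem_nhds hwk] with z hz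
      rw [mon, ← wp_eq_Afun L hz hq, ← Fc_eq]
      ring
    rw [heq.iteratedDeriv_eq]
    simpa using key
  obtain ⟨C1, hC1, g1⟩ := Gr.sigma L
  have grS := Gr.sigma L
  obtain ⟨C2, hC2, g2⟩ : Gr (Afun L q) :=
    ((Gr.const _).mul (grS.mul grS)).sub ((Gr.const _).mul ((grS.shift q).mul (grS.shift (-q))))
  obtain ⟨C3, hC3, g3⟩ : Gr (Bfun L q c) :=
    (Gr.const _).mul ((grS.shift q).mul (Gr.exp _))
  set C := C1 + C2 + C3 with hCdef
  have hu : ∀ z : ℂ, 0 ≤ 1 + ‖z‖ ^ 3 := fun z => by positivity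
  obtain ⟨r, a, ha, hTheta⟩ := SLData.main
    { S := sigma L
      A := Afun L q
      B := Bfun L q c
      hS := differentiable_sigma L
      hA := differentiable_Afun L q
      hB := differentiable_Bfun L q c
      C := C
      hC := by positivity
      gS := fun z => (g1 z).trans (Real.exp_le_exp.mpr (by
        have := hu z
        rw [hCdef]; nlinarith [mul_nonneg hC2 this, mul_nonneg hC3 this]))
      gA := fun z => (g2 z).trans (Real.exp_le_exp.mpr (by
        have := hu z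
        rw [hCdef]; nlinarith [mul_nonneg hC1 this, mul_nonneg hC3 this]))
      gB := fun z => (g3 z).trans (Real.exp_le_exp.mpr (by
        have := hu z
        rw [hCdef]; nlinarith [mul_nonneg hC1 this, mul_nonneg hC2 this]))
      w := w
      hw := hwinj
      hSw := fun k => sigma_ne_zero L (hnt _ (by omega))
      D := D
      hD := hD
      hint := fun k i j m => by
        obtain ⟨g, hg⟩ := mem_Zi.mp (hint k i j m)
        exact ⟨g, hg.symm⟩ }
  apply ha
  refine independence L (Fc L q c) q _ l hl hχ (Complex.exp_ne_zero _)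
    (fun z => Fc_add_coe L hl q c z) (fun z hz hzq => Fc_ne_zero L hz hq hzq) a ?_
  intro z hz
  have hsz := sigma_ne_zero L hz
  have h1 := hTheta z
  rw [SLData.Theta_eq _ a hsz] at h1
  rcases mul_eq_zero.mp h1 with h2 | h2
  · exact absurd h2 (pow_ne_zero _ hsz)
  · rw [SLData.Phi] at h2
    rw [← h2]
    refine Finset.sum_congr rfl fun x _ => ?_
    rw [SLData.mono]
    simp only
    rw [← wp_eq_Afun L hz hq, ← Fc_eq]

end H667R3
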