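import Pool.Agent.H667R3.D2

/-! Multiples of points, non-torsion. -/

open Module Filter
open scoped Topology Nat PeriodPair

noncomputable section

namespace H667R3

open Complex (I)

section general

lemma mem_dup (K : Subfield ℂ) {x y g : ℂ} (hx : x ∈ K) (hy : y ∈ K) (hg : g ∈ K) :
    -2 * x + (6 * x ^ 2 - g / 2) ^ 2 / (4 * y ^ 2) ∈ K := by
  (repeat (first | assumption | (exact one_mem _) | (exact ofNat_mem _ _) | (apply div_mem) | (apply mul_mem) | (apply sub_mem) | (apply add_mem) | (apply neg_mem) | (apply pow_mem)))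

lemma mem_dup' (K : Subfield ℂ) {x y g : ℂ} (hx : x ∈ K) (hy : y ∈ K) (hg : g ∈ K) :
    (-2 * y +
      ((2 * (6 * x ^ 2 - g / 2) * (12 * x * y)) * (4 * y ^ 2)
        - (6 * x ^ 2 - g / 2) ^ 2 * (4 * (2 * y * (6 * x ^ 2 - g / 2))))
      / (4 * y ^ 2) ^ 2) / 2 ∈ K := by
  have h1 : 6 * x ^ 2 - g / 2 ∈ K := by (repeat (first | assumption | (exact one_mem _) | (exact ofNat_mem _ _) | (apply div_mem) | (apply mul_mem) | (apply sub_mem) | (apply add_mem) | (apply neg_mem) | (apply pow_mem)))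
  generalize 6 * x ^ 2 - g / 2 = u at h1
  (repeat (first | assumption | (exact one_mem _) | (exact ofNat_mem _ _) | (apply div_mem) | (apply mul_mem) | (apply sub_mem) | (apply add_mem) | (apply neg_mem) | (apply pow_mem)))

lemma mem_add (K : Subfield ℂ) {x y g x₀ y₀ : ℂ} (hx : x ∈ K) (hy : y ∈ K) (hg : g ∈ K)
    (hx₀ : x₀ ∈ K) (hy₀ : y₀ ∈ K) :
    x - ((6 * x ^ 2 - g / 2) * (x - x₀)
      - (y - y₀) * y) / (2 * (x - x₀) ^ 2) ∈ K := by
  (repeat (first | assumption | (exact one_mem _) | (exact ofNat_mem _ _) | (apply div_mem) | (apply mul_mem) | (apply sub_mem) | (apply add_mem) | (apply neg_mem) | (apply pow_mem)))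

lemma mem_add' (K : Subfield ℂ) {x y g x₀ y₀ : ℂ} (hx : x ∈ K) (hy : y ∈ K) (hg : g ∈ K)
    (hx₀ : x₀ ∈ K) (hy₀ : y₀ ∈ K) :
    y -
      (((12 * x * y) * (x - x₀) + (6 * x ^ 2 - g / 2) * y
      - ((6 * x ^ 2 - g / 2) * y
          + (y - y₀) * (6 * x ^ 2 - g / 2))) * (2 * (x - x₀) ^ 2)
      - ((6 * x ^ 2 - g / 2) * (x - x₀)
        - (y - y₀) * y) * (2 * (2 * (x - x₀) * y)))
      / (2 * (x - x₀) ^ 2) ^ 2 ∈ K := by
  have h1 : 6 * x ^ 2 - g / 2 ∈ K := by (repeat (first | assumption | (exact one_mem _) | (exact ofNat_mem _ _) | (apply div_mem) | (apply mul_mem) | (apply sub_mem) | (apply add_mem) | (apply neg_mem) | (apply pow_mem)))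
  have h2 : x - x₀ ∈ K := by (repeat (first | assumption | (exact one_mem _) | (exact ofNat_mem _ _) | (apply div_mem) | (apply mul_mem) | (apply sub_mem) | (apply add_mem) | (apply neg_mem) | (apply pow_mem)))
  have h3 : y - y₀ ∈ K := by (repeat (first | assumption | (exact one_mem _) | (exact ofNat_mem _ _) | (apply div_mem) | (apply mul_mem) | (apply sub_mem) | (apply add_mem) | (apply neg_mem) | (apply pow_mem)))
  generalize 6 * x ^ 2 - g / 2 = u at h1
  generalize x - x₀ = v at h2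
  generalize y - y₀ = w at h3
  (repeat (first | assumption | (exact one_mem _) | (exact ofNat_mem _ _) | (apply div_mem) | (apply mul_mem) | (apply sub_mem) | (apply add_mem) | (apply neg_mem) | (apply pow_mem)))

variable (L : PeriodPair) (K : Subfield ℂ)

lemma wp_nmul_mem {z : ℂ} (hg : L.g₂ ∈ K) (hnt : ∀ n : ℕ, 0 < n → (n : ℂ) * z ∉ L.lattice)
    (h1 : ℘[L] z ∈ K) (h2 : ℘'[L] z ∈ K) (n : ℕ) (hn : 0 < n) :
    ℘[L] (n * z) ∈ K ∧ ℘'[L] (n * z) ∈ K := by
  have hz : z ∉ L.lattice := by simpa using hnt 1 one_pos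
  have h2z : 2 * z ∉ L.lattice := by simpa using hnt 2 two_pos
  induction n using Nat.strong_induction_on with
  | _ n ih =>
    rcases Nat.lt_or_ge n 3 with hlt | hge
    · interval_cases n
      · simpa using ⟨h1, h2⟩
      · constructor
        · have := wp_two L h2z
          push_cast
          rw [this]
          exact mem_dup K h1 h2 hg
        · have := wp'_two L h2z
          push_cast
          rw [this]
          exact mem_dup' K h1 h2 hg
    · obtain ⟨m, rfl⟩ : ∃ m, n = m + 1 := ⟨n - 1, by omega⟩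
      obtain ⟨e1, e2⟩ := ih m (by omega) (by omega)
      have c1 : 2 * ((m : ℂ) * z) ∉ L.lattice := by
        have := hnt (2 * m) (by omega)
        push_cast at this
        rwa [mul_assoc] at this
      have c2 : (m : ℂ) * z + z ∉ L.lattice := by
        have := hnt (m + 1) (by omega)
        push_cast at this
        rwa [add_mul, one_mul] at this
      have c3 : (m : ℂ) * z - z ∉ L.lattice := by
        have := hnt (m - 1) (by omega)
        rw [Nat.cast_sub (by omega)] at this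
        push_cast at this
        rwa [sub_mul, one_mul] at this
      have e3 : ((m + 1 : ℕ) : ℂ) * z = (m : ℂ) * z + z := by push_cast; ring
      rw [e3]
      constructor
      · rw [wp_add L c1 hz c2 c3]
        exact mem_add K e1 e2 hg h1 h2
      · rw [wp'_add L c1 hz c2 c3]
        exact mem_add' K e1 e2 hg h1 h2

lemma serreF_nmul {z q : ℂ} (hq : q ∉ L.lattice)
    (hnt : ∀ n : ℕ, 0 < n → (n : ℂ) * z ∉ L.lattice)
    (hntq : ∀ n : ℕ, 0 < n → (n : ℂ) * z + q ∉ L.lattice)
    (h1 : ∀ n : ℕ, 0 < n → ℘[L] (n * z) ∈ K) (h2 : ℘'[L] z ∈ K)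
    (h3 : ∀ n : ℕ, 0 < n → ℘[L] (n * z + q) ∈ K) (n : ℕ) (hn : 0 < n) :
    ∃ e ∈ K, e ≠ 0 ∧ serreF L q (n * z) = e * serreF L q z ^ n := by
  have hz : z ∉ L.lattice := by simpa using hnt 1 one_pos
  have hzq : z + q ∉ L.lattice := by simpa using hntq 1 one_pos
  have h2z : 2 * z ∉ L.lattice := by simpa using hnt 2 two_pos
  have hfz := serreF_ne_zero L hz hq hzq
  have hPz : ℘[L] z ∈ K := by simpa using h1 1 one_pos
  have hPzq : ℘[L] (z + q) ∈ K := by simpa using h3 1 one_pos
  induction n using Nat.strong_induction_on with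
  | _ n ih =>
    rcases Nat.lt_or_ge n 3 with hlt | hge
    · interval_cases n
      · exact ⟨1, one_mem _, one_ne_zero, by simp⟩
      · refine ⟨(℘[L] (z + q) - ℘[L] z) / ℘'[L] z, by (repeat (first | assumption | (exact one_mem _) | (exact ofNat_mem _ _) | (apply div_mem) | (apply mul_mem) | (apply sub_mem) | (apply add_mem) | (apply neg_mem) | (apply pow_mem))), ?_, ?_⟩
        · intro h0
          have h4 := serreF_two L h2z hq hzq
          rw [h0, mul_zero] at h4
          exact serreF_ne_zero L h2z hq (by simpa using hntq 2 two_pos) h4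
        · push_cast
          rw [serreF_two L h2z hq hzq]; ring
    · obtain ⟨m, rfl⟩ : ∃ m, n = m + 2 := ⟨n - 2, by omega⟩
      obtain ⟨e1, k1, n1, f1⟩ := ih (m + 1) (by omega) (by omega)
      obtain ⟨e0, k0, n0, f0⟩ := ih m (by omega) (by omega)
      have c0 : ((m + 1 : ℕ) : ℂ) * z ∉ L.lattice := hnt _ (by omega)
      have c1 : ((m + 1 : ℕ) : ℂ) * z + z ∉ L.lattice := by
        have := hnt (m + 2) (by omega)
        convert this using 2
        push_cast; ring
      have c2 : ((m + 1 : ℕ) : ℂ) * z - z ∉ L.lattice := by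
        have := hnt m (by omega)
        convert this using 2
        push_cast; ring
      have c3 := hntq (m + 1) (by omega)
      have key := serreF_add_sub L c0 hz hq c3 c1 c2
      have e3 : ((m + 1 : ℕ) : ℂ) * z + z = ((m + 2 : ℕ) : ℂ) * z := by push_cast; ring
      have e4 : ((m + 1 : ℕ) : ℂ) * z - z = (m : ℂ) * z := by push_cast; ring
      rw [e3, e4, f1, f0] at key
      have hρ : (℘[L] (((m + 1 : ℕ) : ℂ) * z + q) - ℘[L] z) / (℘[L] (((m + 1 : ℕ) : ℂ) * z) - ℘[L] z) ∈ K := by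
        have a1 := h1 (m + 1) (by omega)
        have a2 := h3 (m + 1) (by omega)
        (repeat (first | assumption | (exact one_mem _) | (exact ofNat_mem _ _) | (apply div_mem) | (apply mul_mem) | (apply sub_mem) | (apply add_mem) | (apply neg_mem) | (apply pow_mem)))
      set ρ := (℘[L] (((m + 1 : ℕ) : ℂ) * z + q) - ℘[L] z) / (℘[L] (((m + 1 : ℕ) : ℂ) * z) - ℘[L] z)
      have hne : serreF L q (((m + 2 : ℕ) : ℂ) * z) ≠ 0 :=
        serreF_ne_zero L (hnt _ (by omega)) hq (hntq _ (by omega))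
      have hval : serreF L q (((m + 2 : ℕ) : ℂ) * z) = (e1 ^ 2 * ρ / e0) * serreF L q z ^ (m + 2) := by
        have h5 : e0 * serreF L q z ^ m ≠ 0 := mul_ne_zero n0 (pow_ne_zero _ hfz)
        apply mul_right_cancel₀ h5
        rw [key]
        field_simp
        ring
      refine ⟨e1 ^ 2 * ρ / e0, by (repeat (first | assumption | (exact one_mem _) | (exact ofNat_mem _ _) | (apply div_mem) | (apply mul_mem) | (apply sub_mem) | (apply add_mem) | (apply neg_mem) | (apply pow_mem))), ?_, hval⟩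
      intro h0
      rw [h0, zero_mul] at hval
      exact hne hval

end general

/-- non-torsion of the point `(-4, 12)` on `y² = 4x³ - 100x` -/
lemma wp_pow_two {L : PeriodPair} (hg₂ : L.g₂ = 100) (hg₃ : L.g₃ = 0) {p : ℂ} (hp : p ∉ L.lattice)
    (h1 : ℘[L] p = -4) (k : ℕ) :
    (2 ^ (k + 1) : ℂ) * p ∉ L.lattice ∧ ∃ m n : ℤ, Odd m ∧ Odd n ∧
      ℘[L] ((2 ^ (k + 1) : ℂ) * p) * (2 ^ (2 * k + 4) * n) = m := by
  have step : ∀ z, z ∉ L.lattice → 4 * ℘[L] z ^ 3 - 100 * ℘[L] z ≠ 0 →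
      2 * z ∉ L.lattice ∧ ℘[L] (2 * z) * (4 * ℘[L] z ^ 3 - 100 * ℘[L] z) = (℘[L] z ^ 2 + 25) ^ 2 := by
    intro z hz hne
    have h3 := L.derivWeierstrassP_sq z hz
    rw [hg₂, hg₃, sub_zero] at h3
    have h4 : 2 * z ∉ L.lattice := by
      intro h
      have h5 := wp'_half_eq_zero L h
      rw [mul_div_cancel_left₀ z (two_ne_zero)] at h5
      rw [h5] at h3
      apply hne
      rw [← h3]; norm_num
    refine ⟨h4, ?_⟩
    rw [wp_two L h4, h3, hg₂]
    obtain ⟨u, hu⟩ : ∃ u, u = 4 * ℘[L] z ^ 3 - 100 * ℘[L] z := ⟨_, rfl⟩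
    rw [← hu] at hne ⊢
    field_simp
    rw [hu]
    ring
  induction k with
  | zero =>
    obtain ⟨a1, a2⟩ := step p hp (by rw [h1]; norm_num)
    refine ⟨by simpa using a1, 1681, 9, by decide, by decide, ?_⟩
    rw [h1] at a2
    norm_num at a2 ⊢
    linear_combination a2
  | succ k ih =>
    obtain ⟨b1, m, n, hm, hn, b2⟩ := ih
    set z := (2 ^ (k + 1) : ℂ) * p with hz
    set X := ℘[L] z with hX
    set a : ℕ := 2 * k + 4 with ha
    have hn0 : (n : ℂ) ≠ 0 := by
      have : n ≠ 0 := by rintro rfl; simp at hn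
      exact_mod_cast this
    have h2a : (2 : ℂ) ^ a ≠ 0 := pow_ne_zero _ two_ne_zero
    have hXeq : X = m / (2 ^ a * n) := by
      rw [eq_div_iff (mul_ne_zero h2a hn0)]; exact b2
    set M : ℤ := m ^ 2 + 25 * 4 ^ a * n ^ 2 with hM
    set M' : ℤ := m ^ 2 - 25 * 4 ^ a * n ^ 2 with hM'
    have heven : Even ((4 : ℤ) ^ a) := by
      rw [Int.even_pow]; exact ⟨by decide, by omega⟩
    have hMo : Odd M := (hm.pow).add_even (by
      rw [mul_assoc, mul_comm ((4 : ℤ) ^ a), ← mul_assoc]; exact heven.mul_left _)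
    have hMo' : Odd M' := (hm.pow).sub_even (by
      rw [mul_assoc, mul_comm ((4 : ℤ) ^ a), ← mul_assoc]; exact heven.mul_left _)
    have h4a : (4 : ℂ) ^ a = (2 ^ a) ^ 2 := by
      rw [← pow_mul, mul_comm, pow_mul]; norm_num
    have e1 : X ^ 2 + 25 = M / (4 ^ a * n ^ 2) := by
      rw [hXeq, hM]; push_cast; rw [h4a]; field_simp
    have e2 : X ^ 2 - 25 = M' / (4 ^ a * n ^ 2) := by
      rw [hXeq, hM']; push_cast; rw [h4a]; field_simp
    have hm0 : (m : ℂ) ≠ 0 := by
      have : m ≠ 0 := by rintro rfl; simp at hm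
      exact_mod_cast this
    have hM'0 : (M' : ℂ) ≠ 0 := by
      have : M' ≠ 0 := by intro h; rw [h] at hMo'; simp at hMo'
      exact_mod_cast this
    have e3 : 4 * X ^ 3 - 100 * X = 4 * m * M' / (2 ^ a * n * (4 ^ a * n ^ 2)) := by
      have : 4 * X ^ 3 - 100 * X = 4 * X * (X ^ 2 - 25) := by ring
      rw [this, e2, hXeq]; field_simp
    have hne : 4 * X ^ 3 - 100 * X ≠ 0 := by
      rw [e3, h4a]
      apply div_ne_zero
      · exact mul_ne_zero (mul_ne_zero (by norm_num) hm0) hM'0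
      · exact mul_ne_zero (mul_ne_zero h2a hn0) (mul_ne_zero (pow_ne_zero _ h2a) (pow_ne_zero _ hn0))
    obtain ⟨a1, a2⟩ := step z b1 hne
    have hzz : (2 ^ (k + 1 + 1) : ℂ) * p = 2 * z := by rw [hz]; ring
    rw [hzz]
    refine ⟨a1, M ^ 2, n * (m * M'), hMo.pow, hn.mul (hm.mul hMo'), ?_⟩
    rw [e1, e3, h4a] at a2
    have e5 : (2 : ℂ) ^ (2 * (k + 1) + 4) = 4 * 2 ^ a := by
      rw [ha]; ring
    rw [e5]
    push_cast
    field_simp at a2
    have e6 : (℘[L] (2 * z) * (4 * 2 ^ a * (n * (m * M'))) - M ^ 2) * 1 = 0 := by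
      linear_combination a2
    linear_combination e6

end H667R3
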