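import Pool.Agent.H667R3.E1

/-! The concrete curve `y² = 4x³ - 100x`. -/

open Module Filter
open scoped Topology Nat PeriodPair

noncomputable section

namespace H667R3

open Complex (I)

lemma nontorsion {L : PeriodPair} (hg₂ : L.g₂ = 100) (hg₃ : L.g₃ = 0) {p : ℂ} (hp : p ∉ L.lattice)
    (h1 : ℘[L] p = -4) (n : ℕ) (hn : 0 < n) : (n : ℂ) * p ∉ L.lattice := by
  intro hnp
  have : NeZero n := ⟨hn.ne'⟩
  have hninj : ¬ Function.Injective (fun k : ℕ => (((2 ^ (k + 1) : ℕ)) : ZMod n)) := by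
    intro hinj
    exact not_injective_infinite_finite _ hinj
  rw [Function.not_injective_iff] at hninj
  -- wlog k < k'
  have key : ∀ k k' : ℕ, k < k' → (((2 ^ (k + 1) : ℕ)) : ZMod n) = (((2 ^ (k' + 1) : ℕ)) : ZMod n) →
      False := by
    intro k k' hlt heq
    rw [ZMod.natCast_eq_natCast_iff'] at heq
    have hdvd : n ∣ 2 ^ (k' + 1) - 2 ^ (k + 1) :=
      (Nat.modEq_iff_dvd' (Nat.pow_le_pow_right (by norm_num) (by omega))).mp heq
    obtain ⟨m, hm⟩ := hdvd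
    have hle : 2 ^ (k + 1) ≤ 2 ^ (k' + 1) := Nat.pow_le_pow_right (by norm_num) (by omega)
    have e1 : 2 ^ (k' + 1) = 2 ^ (k + 1) + n * m := by omega
    have e2 : (2 ^ (k' + 1) : ℂ) * p = (2 ^ (k + 1) : ℂ) * p + (m : ℤ) * ((n : ℂ) * p) := by
      have : ((2 ^ (k' + 1) : ℕ) : ℂ) = ((2 ^ (k + 1) + n * m : ℕ) : ℂ) := by rw [e1]
      push_cast at this ⊢
      rw [this]; ring
    have hmem := intCast_mul_mem L hnp (m : ℤ)
    have e3 : ℘[L] ((2 ^ (k' + 1) : ℂ) * p) = ℘[L] ((2 ^ (k + 1) : ℂ) * p) := by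
      rw [e2]; exact L.weierstrassP_add_coe _ ⟨_, hmem⟩
    obtain ⟨_, m1, n1, hm1, hn1, f1⟩ := wp_pow_two hg₂ hg₃ hp h1 k
    obtain ⟨_, m2, n2, hm2, hn2, f2⟩ := wp_pow_two hg₂ hg₃ hp h1 k'
    rw [e3] at f2
    obtain ⟨j, hj⟩ : ∃ j, 2 * k' + 4 = 2 * k + 4 + (j + 1) := ⟨2 * k' - 2 * k - 1, by omega⟩
    rw [hj, pow_add] at f2
    have f3 : (m1 * (2 ^ (j + 1) * n2) : ℂ) = m2 * n1 := by
      rw [← f1, ← f2]; ring
    have f4 : m1 * (2 ^ (j + 1) * n2) = m2 * n1 := by exact_mod_cast f3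
    have h5 : Odd (m2 * n1) := hm2.mul hn1
    rw [← f4] at h5
    have h6 : Even (m1 * (2 ^ (j + 1) * n2)) := by
      apply Even.mul_left
      apply Even.mul_right
      rw [Int.even_pow]
      exact ⟨by decide, by omega⟩
    exact (Int.not_even_iff_odd.mpr h5) h6
  obtain ⟨k, k', heq, hne⟩ := hninj
  rcases lt_or_gt_of_ne hne with h | h
  · exact key k k' h heq
  · exact key k' k h heq.symm

/-- with complex multiplication: `(n + i) p ∉ Λ`, `(n - i) p ∉ Λ` -/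
lemma nontorsion_cm {L : PeriodPair} (hL : CM L) {p : ℂ}
    (hnt : ∀ n : ℕ, 0 < n → (n : ℂ) * p ∉ L.lattice) (n : ℕ) :
    (n : ℂ) * p + I * p ∉ L.lattice ∧ (n : ℂ) * p - I * p ∉ L.lattice := by
  have hI : (I : ℂ) * I = -1 := Complex.I_mul_I
  have hmem := hnt (n ^ 2 + 1) (by positivity)
  constructor
  · intro h
    apply hmem
    have h1 := sub_mem (intCast_mul_mem L h (n : ℤ)) (hL _ h)
    convert h1 using 1
    push_cast
    linear_combination p * hI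
  · intro h
    apply hmem
    have h1 := add_mem (intCast_mul_mem L h (n : ℤ)) (hL _ h)
    convert h1 using 1
    push_cast
    linear_combination p * hI

/-- existence of the curve and of the point -/
lemma exists_data : ∃ (ω : ℂ) (hω : ω ≠ 0) (p : ℂ), (sq ω hω).g₂ = 100 ∧ (sq ω hω).g₃ = 0 ∧
    p ∉ (sq ω hω).lattice ∧ ℘[sq ω hω] p = -4 ∧ ℘'[sq ω hω] p = 12 := by
  obtain ⟨ω, hω, hg₂⟩ := exists_sq_g₂ 100 (by norm_num)
  have hg₃ : (sq ω hω).g₃ = 0 := g₃_eq_zero CM_sq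
  obtain ⟨p, hp, hPp⟩ := exists_wp_eq (sq ω hω) (-4)
  have h3 := (sq ω hω).derivWeierstrassP_sq p hp
  rw [hg₂, hg₃, hPp] at h3
  have h4 : (℘'[sq ω hω] p - 12) * (℘'[sq ω hω] p + 12) = 0 := by
    linear_combination h3
  rcases mul_eq_zero.mp h4 with h | h
  · exact ⟨ω, hω, p, hg₂, hg₃, hp, hPp, sub_eq_zero.mp h⟩
  · refine ⟨ω, hω, -p, hg₂, hg₃, fun h' => hp (by simpa using neg_mem h'), ?_, ?_⟩
    · rw [PeriodPair.weierstrassP_neg, hPp]
    · rw [PeriodPair.derivWeierstrassP_neg]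
      linear_combination -h

end H667R3
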