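import Pool.Agent.H667R3.E2

/-! The third kind integral of the Ribet point is not a rational combination of periods. -/

open Module Filter
open scoped Topology Nat PeriodPair

noncomputable section

namespace H667R3

open Complex (I)

/-- period of `ξ = ξ_q + c dz` along (a lift of) `l` -/
def lam (L : PeriodPair) (q c l : ℂ) : ℂ := l * zeta L q - eta L l * q + c * l

lemma lam_add {L : PeriodPair} {l l' : ℂ} (hl : l ∈ L.lattice) (hl' : l' ∈ L.lattice) (q c : ℂ) :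
    lam L q c (l + l') = lam L q c l + lam L q c l' := by
  rw [lam, lam, lam, eta_add L hl hl']; ring

lemma lam_neg {L : PeriodPair} {l : ℂ} (hl : l ∈ L.lattice) (q c : ℂ) :
    lam L q c (-l) = - lam L q c l := by
  rw [lam, lam, eta_neg L hl]; ring

lemma lam_zsmul {L : PeriodPair} {l : ℂ} (hl : l ∈ L.lattice) (q c : ℂ) (n : ℤ) :
    lam L q c (n * l) = n * lam L q c l := by
  rw [lam, lam, eta_zsmul L hl]; ring

lemma sq_eq_eightI {r : ℂ} (h : r ^ 2 = 8 * I) : r ∈ Ki := by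
  have h1 : (r - (2 + 2 * I)) * (r + (2 + 2 * I)) = 0 := by
    linear_combination h - 4 * Complex.I_mul_I
  have h2 : (2 + 2 * I : ℂ) ∈ Ki := by
    have := I_mem_Ki
    (repeat (first | assumption | (exact one_mem _) | (exact ofNat_mem _ _) | (apply div_mem) | (apply mul_mem) | (apply sub_mem) | (apply add_mem) | (apply neg_mem) | (apply pow_mem)))
  rcases mul_eq_zero.mp h1 with h | h
  · rw [sub_eq_zero.mp h]; exact h2
  · rw [eq_neg_of_add_eq_zero_left h]; exact neg_mem h2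

theorem notMem_V {ω : ℂ} {hω : ω ≠ 0} {p : ℂ} (hg₂ : (sq ω hω).g₂ = 100)
    (hg₃ : (sq ω hω).g₃ = 0) (hp : p ∉ (sq ω hω).lattice) (hPp : ℘[sq ω hω] p = -4)
    (hPp' : ℘'[sq ω hω] p = 12) (c : ℂ) (hc : c ∈ Ki) :
    ¬ ∃ a b₁ b₂ : ℚ, -(I * p * zeta (sq ω hω) p) + c * p = a * (2 * Real.pi * I) +
      b₁ * lam (sq ω hω) (I * p) c (sq ω hω).ω₁ + b₂ * lam (sq ω hω) (I * p) c (sq ω hω).ω₂ := by
  have hCM : CM (sq ω hω) := CM_sq
  have hleg : ω * eta (sq ω hω) ω = Real.pi := legendre_sq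
  have hη2 : eta (sq ω hω) (I * ω) = - I * eta (sq ω hω) ω :=
    eta_I_mul hCM (sq ω hω).ω₁_mem_lattice
  have hω₁ : (sq ω hω).ω₁ = ω := rfl
  have hω₂ : (sq ω hω).ω₂ = I * ω := rfl
  have hω₁m := (sq ω hω).ω₁_mem_lattice
  have hω₂m := (sq ω hω).ω₂_mem_lattice
  rw [hω₁] at hω₁m
  rw [hω₂] at hω₂m
  rw [hω₁, hω₂]
  generalize sq ω hω = L at *
  rintro ⟨a, b₁, b₂, hV⟩
  have hI : (I : ℂ) * I = -1 := Complex.I_mul_I
  have hg₂K : L.g₂ ∈ Ki := by rw [hg₂]; exact ofNat_mem _ _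
  have hPpK : ℘[L] p ∈ Ki := by rw [hPp]; exact neg_mem (ofNat_mem _ _)
  have hPpK' : ℘'[L] p ∈ Ki := by rw [hPp']; exact ofNat_mem _ _
  have hnt := nontorsion hg₂ hg₃ hp hPp
  have hntI := fun n => nontorsion_cm hCM hnt n
  set q := I * p with hqdef
  have hq : q ∉ L.lattice := fun h => hp ((I_mul_mem_iff hCM).mp h)
  have hPq : ℘[L] q ∈ Ki := by rw [hqdef, wp_I_mul hCM]; exact neg_mem hPpK
  have hPq' : ℘'[L] q ∈ Ki := by rw [hqdef, wp'_I_mul hCM]; exact mul_mem I_mem_Ki hPpK'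
  -- common denominator
  obtain ⟨N, A, B₁, B₂, hN, hA, hB₁, hB₂⟩ : ∃ (N : ℕ) (A B₁ B₂ : ℤ), 0 < N ∧
      (N : ℂ) * a = A ∧ (N : ℂ) * b₁ = B₁ ∧ (N : ℂ) * b₂ = B₂ := by
    refine ⟨a.den * b₁.den * b₂.den, a.num * b₁.den * b₂.den, b₁.num * a.den * b₂.den,
      b₂.num * a.den * b₁.den, ?_, ?_, ?_, ?_⟩
    · have := a.den_pos; have := b₁.den_pos; have := b₂.den_pos; positivity
    · have : (a.den : ℂ) * a = a.num := by exact_mod_cast Rat.den_mul_eq_num a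
      push_cast
      linear_combination (b₁.den * b₂.den : ℂ) * this
    · have : (b₁.den : ℂ) * b₁ = b₁.num := by exact_mod_cast Rat.den_mul_eq_num b₁
      push_cast
      linear_combination (a.den * b₂.den : ℂ) * this
    · have : (b₂.den : ℂ) * b₂ = b₂.num := by exact_mod_cast Rat.den_mul_eq_num b₂
      push_cast
      linear_combination (a.den * b₁.den : ℂ) * this
  set μ : ℂ := B₁ * ω + B₂ * (I * ω) with hμ
  have hμ1 := intCast_mul_mem L hω₁m B₁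
  have hμ2 := intCast_mul_mem L hω₂m B₂
  have hμm : μ ∈ L.lattice := add_mem hμ1 hμ2
  have hlamμ : lam L q c μ = B₁ * lam L q c ω + B₂ * lam L q c (I * ω) := by
    rw [hμ, lam_add hμ1 hμ2, lam_zsmul hω₁m, lam_zsmul hω₂m]
  set Tc : ℂ := -(I * p * zeta L p) + c * p with hTc
  have hNT : (N : ℂ) * Tc = A * (2 * Real.pi * I) + lam L q c μ := by
    rw [hlamμ, hV, ← hA, ← hB₁, ← hB₂]; ring
  set z₀ : ℂ := N * p - μ with hz₀
  -- transfer to multiples of p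
  have htr : ∀ n : ℕ, (n : ℂ) * z₀ = ((n * N : ℕ) : ℂ) * p + (-((n : ℤ) * μ)) := by
    intro n; rw [hz₀]; push_cast; ring
  have hmm : ∀ n : ℕ, (-((n : ℤ) * μ) : ℂ) ∈ L.lattice := fun n =>
    neg_mem (intCast_mul_mem L hμm (n : ℤ))
  have hpos : ∀ n : ℕ, 0 < n → 0 < n * N := fun n hn => Nat.mul_pos hn hN
  have z1 : ∀ n : ℕ, 0 < n → (n : ℂ) * z₀ ∉ L.lattice := by
    intro n hn h
    rw [htr n] at h
    exact hnt _ (hpos n hn) ((add_mem_iff L (hmm n)).mp h)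
  have z2 : ∀ n : ℕ, 0 < n → (n : ℂ) * z₀ + q ∉ L.lattice := by
    intro n hn h
    rw [htr n, add_right_comm] at h
    exact (hntI (n * N)).1 ((add_mem_iff L (hmm n)).mp h)
  have z3 : ∀ n : ℕ, 0 < n → (n : ℂ) * z₀ - q ∉ L.lattice := by
    intro n hn h
    rw [htr n, add_sub_right_comm] at h
    exact (hntI (n * N)).2 ((add_mem_iff L (hmm n)).mp h)
  have z4 : ∀ n : ℕ, 0 < n → ℘[L] (n * z₀) ∈ Ki := by
    intro n hn
    have := L.weierstrassP_add_coe (((n * N : ℕ) : ℂ) * p) ⟨_, hmm n⟩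
    rw [htr n, this]
    exact (wp_nmul_mem L Ki hg₂K hnt hPpK hPpK' _ (hpos n hn)).1
  have z5 : ∀ n : ℕ, 0 < n → ℘'[L] (n * z₀) ∈ Ki := by
    intro n hn
    have := L.derivWeierstrassP_add_coe (((n * N : ℕ) : ℂ) * p) ⟨_, hmm n⟩
    rw [htr n, this]
    exact (wp_nmul_mem L Ki hg₂K hnt hPpK hPpK' _ (hpos n hn)).2
  have zq : ∀ m : ℕ, 0 < m → ℘[L] (m * p + q) ∈ Ki := by
    intro m hm
    obtain ⟨e1, e2⟩ := wp_nmul_mem L Ki hg₂K hnt hPpK hPpK' _ hm
    have c1 : 2 * ((m : ℂ) * p) ∉ L.lattice := by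
      have := hnt (2 * m) (by omega)
      push_cast at this
      rwa [mul_assoc] at this
    rw [wp_add L c1 hq (hntI m).1 (hntI m).2]
    exact mem_add Ki e1 e2 hg₂K hPq hPq'
  have z6 : ∀ n : ℕ, 0 < n → ℘[L] (n * z₀ + q) ∈ Ki := by
    intro n hn
    have := L.weierstrassP_add_coe (((n * N : ℕ) : ℂ) * p + q) ⟨_, hmm n⟩
    rw [htr n, add_right_comm, this]
    exact zq _ (hpos n hn)
  -- the value of F_c at z₀
  have hr : (Complex.exp (-(I * p * zeta L p)) * serreF L q p) ^ 2 = 8 * I := by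
    rw [hqdef, ribet hCM hp, hPp]; ring
  set r := Complex.exp (-(I * p * zeta L p)) * serreF L q p with hrdef
  have hrK : r ∈ Ki := sq_eq_eightI hr
  obtain ⟨e, heK, -, hfe⟩ := serreF_nmul L Ki hq hnt (fun n _ => (hntI n).1)
    (fun n hn => (wp_nmul_mem L Ki hg₂K hnt hPpK hPpK' n hn).1) hPpK' zq N hN
  have hFz₀ : Fc L q c z₀ = e * r ^ N := by
    have h1 : z₀ = (N : ℂ) * p + (-μ) := by rw [hz₀]; ring
    have h2 := Fc_add_coe L (neg_mem hμm) q c ((N : ℂ) * p)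
    have h3 : -μ * zeta L q - eta L (-μ) * q + c * (-μ) = - lam L q c μ := by
      have := lam_neg hμm q c
      rw [← this, lam]
    rw [h1, h2, h3, neg_neg]
    have h4 : Complex.exp (lam L q c μ) = Complex.exp Tc ^ N := by
      have h5 : lam L q c μ = N * Tc + (-A : ℤ) * (2 * Real.pi * I) := by
        push_cast; linear_combination -hNT
      rw [h5, Complex.exp_add, Complex.exp_int_mul_two_pi_mul_I, mul_one, Complex.exp_nat_mul]
    have h6 : Complex.exp (-(c * ((N : ℂ) * p))) = Complex.exp (-(c * p)) ^ N := by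
      rw [← Complex.exp_nat_mul]; congr 1; ring
    have h7 : Complex.exp Tc * Complex.exp (-(c * p)) = Complex.exp (-(I * p * zeta L p)) := by
      rw [← Complex.exp_add]; congr 1; rw [hTc]; ring
    rw [h4, Fc, hfe, h6, hrdef, ← h7]
    rw [mul_pow, mul_pow]; ring
  have hFz₀K : Fc L q c z₀ ∈ Ki := by rw [hFz₀]; exact mul_mem heK (pow_mem hrK _)
  have z7 : ∀ n : ℕ, 0 < n → Fc L q c (n * z₀) ∈ Ki := by
    intro n hn
    obtain ⟨e', heK', -, hfe'⟩ := serreF_nmul L Ki hq z1 z2 z4 (by simpa using z5 1 one_pos) z6 n hn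
    have h6 : Complex.exp (-(c * ((n : ℂ) * z₀))) = Complex.exp (-(c * z₀)) ^ n := by
      rw [← Complex.exp_nat_mul]; congr 1; ring
    have : Fc L q c (n * z₀) = e' * Fc L q c z₀ ^ n := by
      rw [Fc, hfe', h6, Fc, mul_pow]; ring
    rw [this]
    exact mul_mem heK' (pow_mem hFz₀K _)
  -- the multiplier is not a root of unity
  have hπ : (Real.pi : ℂ) ≠ 0 := by exact_mod_cast Real.pi_ne_zero
  have hχ : ∃ l ∈ L.lattice, ∀ n : ℕ, 0 < n →
      Complex.exp (-(l * zeta L q - eta L l * q + c * l)) ^ n ≠ 1 := by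
    by_contra hcon
    push Not at hcon
    obtain ⟨n₁, hn₁, h₁⟩ := hcon ω hω₁m
    obtain ⟨n₂, hn₂, h₂⟩ := hcon (I * ω) hω₂m
    rw [← Complex.exp_nat_mul, Complex.exp_eq_one_iff] at h₁ h₂
    obtain ⟨k₁, h₁⟩ := h₁
    obtain ⟨k₂, h₂⟩ := h₂
    rw [hη2] at h₂
    -- n₁ (ω x - η q) = - 2πi k₁ , n₂ (ω x + η q) = - 2π k₂
    have e1 : (n₁ : ℂ) * (ω * (zeta L q + c) - eta L ω * q) = -(k₁ * (2 * Real.pi * I)) := by
      linear_combination -h₁
    have e2 : (n₂ : ℂ) * (ω * (zeta L q + c) + eta L ω * q) = -(k₂ * (2 * Real.pi)) := by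
      have : I * ((n₂ : ℂ) * (ω * (zeta L q + c) + eta L ω * q) + (k₂ * (2 * Real.pi))) = 0 := by
        linear_combination -h₂
      rcases mul_eq_zero.mp this with h | h
      · exact absurd h Complex.I_ne_zero
      · linear_combination h
    have e3 : 2 * (Real.pi : ℂ) * ((n₁ : ℂ) * n₂ * q - ((n₂ * k₁ : ℤ) * (I * ω) - (n₁ * k₂ : ℤ) * ω)) = 0 := by
      push_cast
      rw [← hleg]
      linear_combination (ω * n₁) * e2 - (ω * n₂) * e1 + 2 * ω * (n₁ * k₂ - n₂ * k₁ * I) * hleg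
    have e4 : (n₁ : ℂ) * n₂ * q = ((n₂ * k₁ : ℤ) * (I * ω) - (n₁ * k₂ : ℤ) * ω) := by
      rcases mul_eq_zero.mp e3 with h | h
      · exact absurd h (mul_ne_zero two_ne_zero hπ)
      · exact sub_eq_zero.mp h
    have e5 : (n₁ : ℂ) * n₂ * q ∈ L.lattice := by
      rw [e4]
      exact sub_mem (intCast_mul_mem L hω₂m _) (intCast_mul_mem L hω₁m _)
    have e6 : I * (((n₁ * n₂ : ℕ) : ℂ) * p) ∈ L.lattice := by
      convert e5 using 1
      rw [hqdef]; push_cast; ring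
    exact hnt _ (Nat.mul_pos hn₁ hn₂) ((I_mul_mem_iff hCM).mp e6)
  obtain ⟨l, hl, hχ⟩ := hχ
  exact no_alg L q c z₀ (by rw [hg₂]; norm_num) hq hPq hPq' hc z1 z2 z3 z4 z5 z7 l hl hχ

end H667R3
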