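import Mathlib

/-!
Norm-additive surjections onto cones: the abstract part.
`V` is a real vector space with a sublinear nonnegative `ρ` (think of the norm of the positive part
on the self-adjoint part of a C*-algebra); the cone is `{x | ρ (-x) = 0}`.
-/

set_option autoImplicit false

namespace Pool.Agent.H667R3.NormAdd

open Filter Topology MeasureTheory

/-- The properties of `x ↦ ‖x⁺‖` that the argument uses. -/
structure Gauge {V : Type*} [AddCommGroup V] [Module ℝ V] (ρ : V → ℝ) : Prop where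
  add : ∀ x y, ρ (x + y) ≤ ρ x + ρ y
  smul : ∀ (t : ℝ) (x : V), 0 < t → ρ (t • x) = t * ρ x
  nonneg : ∀ x, 0 ≤ ρ x
  sep : ∀ x, ρ x = 0 → ρ (-x) = 0 → x = 0
  test : ∀ y z, ρ (-y) = 0 → ρ (-z) = 0 → ∀ t : ℝ, 0 ≤ t →
    (∀ b, ρ (-b) = 0 → ρ (y + b) ≤ ρ (z + b) + t) → ρ (y - z) ≤ t
  expose : ∀ z, 0 < ρ z → ∃ e, ρ (-e) = 0 ∧ ρ e = ρ z ∧ ∃ κ : ℝ, 0 < κ ∧
    ρ (e + κ • (e - z)) ≤ ρ e

namespace Gauge

variable {V : Type*} [AddCommGroup V] [Module ℝ V] {ρ : V → ℝ}

lemma zero (h : Gauge ρ) : ρ 0 = 0 := by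
  have := h.smul 2 0 (by norm_num)
  rw [smul_zero] at this
  linarith

/-- Norming functionals exist. -/
lemma norming (h : Gauge ρ) (x : V) : ∃ ψ : V →ₗ[ℝ] ℝ, (∀ v, ψ v ≤ ρ v) ∧ ψ x = ρ x := by
  have H : ∀ c : ℝ, c • x = 0 → (RingHom.id ℝ) c • ρ x = 0 := by
    intro c hc
    rcases smul_eq_zero.1 hc with h0 | h0
    · simp [h0]
    · simp [h0, h.zero]
  obtain ⟨g, hg1, hg2⟩ := exists_extension_of_le_sublinear
    (LinearPMap.mkSpanSingleton' x (ρ x) H) ρ (fun c hc x => h.smul c x hc) h.add (by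
      rintro ⟨y, hy⟩
      have hy' := hy
      rw [LinearPMap.domain_mkSpanSingleton] at hy'
      obtain ⟨c, rfl⟩ := Submodule.mem_span_singleton.1 hy'
      rw [LinearPMap.mkSpanSingleton'_apply]
      simp only [RingHom.id_apply, smul_eq_mul]
      rcases lt_trichotomy c 0 with hc | hc | hc
      · have := h.nonneg x
        have := h.nonneg (c • x)
        nlinarith
      · simp [hc, h.zero]
      · rw [h.smul c x hc])
  refine ⟨g, hg2, ?_⟩
  have hx : x ∈ (LinearPMap.mkSpanSingleton' x (ρ x) H).domain := by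
    rw [LinearPMap.domain_mkSpanSingleton]
    exact Submodule.mem_span_singleton_self x
  have := hg1 ⟨x, hx⟩
  rw [LinearPMap.mkSpanSingleton'_apply_self] at this
  exact this

lemma apply_nonneg {ψ : V →ₗ[ℝ] ℝ} (hψ : ∀ v, ψ v ≤ ρ v) {b : V}
    (hb : ρ (-b) = 0) : 0 ≤ ψ b := by
  have := hψ (-b)
  rw [map_neg, hb] at this
  linarith

lemma mono (h : Gauge ρ) (x : V) {b : V} (hb : ρ (-b) = 0) : ρ x ≤ ρ (x + b) := by
  have := h.add (x + b) (-b)
  rw [hb] at this
  simpa using this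

lemma add_pos (h : Gauge ρ) {x y : V} (hx : ρ (-x) = 0) (hy : ρ (-y) = 0) : ρ (-(x + y)) = 0 := by
  refine le_antisymm ?_ (h.nonneg _)
  have := h.add (-x) (-y)
  rw [hx, hy] at this
  rw [neg_add]
  linarith

lemma smul_pos (h : Gauge ρ) {x : V} (hx : ρ (-x) = 0) {t : ℝ} (ht : 0 ≤ t) :
    ρ (-(t • x)) = 0 := by
  rcases ht.eq_or_lt with ht | ht
  · simp [← ht, h.zero]
  · rw [← smul_neg, h.smul t _ ht, hx, mul_zero]

lemma le_abs_smul (h : Gauge ρ) {b : V} (hb : ρ (-b) = 0) (t : ℝ) : ρ (t • b) ≤ |t| * ρ b := by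
  rcases le_or_gt 0 t with ht | ht
  · rcases ht.eq_or_lt with ht | ht
    · simp [← ht, h.zero]
    · rw [h.smul t b ht, abs_of_pos ht]
  · have h1 : t • b = (-t) • (-b) := by simp
    rw [h1, h.smul (-t) _ (by linarith), hb, mul_zero]
    exact mul_nonneg (abs_nonneg _) (h.nonneg _)

/-- The exposing lemma. -/
lemma exposing (h : Gauge ρ) (w b c : V) (hw : 0 < ρ w) (hb : ρ (-b) = 0) (hc : ρ (-c) = 0) :
    ∃ e, ρ (-e) = 0 ∧ 0 < ρ e ∧ ∃ β γ δ : ℝ, 0 < δ ∧ ∀ ε : ℝ, 0 < ε → ∃ θ : ℝ, 0 < θ ∧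
      ∀ ψ : V →ₗ[ℝ] ℝ, (∀ v, ψ v ≤ ρ v) → ρ e - θ ≤ ψ e →
        |ψ b - β| ≤ ε ∧ |ψ c - γ| ≤ ε ∧ δ ≤ ψ w := by
  set p : ℝ × ℝ → ℝ := fun a => ρ (w + a.1 • b + a.2 • c) with hp
  have hlip1 : ∀ a a' : ℝ × ℝ, p a - p a' ≤ (ρ b + ρ c) * ‖a - a'‖ := by
    intro a a'
    have e1 : w + a.1 • b + a.2 • c = (w + a'.1 • b + a'.2 • c) +
        ((a.1 - a'.1) • b + (a.2 - a'.2) • c) := by
      rw [sub_smul, sub_smul]; abel
    have h1 := h.add (w + a'.1 • b + a'.2 • c) ((a.1 - a'.1) • b + (a.2 - a'.2) • c)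
    rw [← e1] at h1
    have h2 := h.add ((a.1 - a'.1) • b) ((a.2 - a'.2) • c)
    have h3 := h.le_abs_smul hb (a.1 - a'.1)
    have h4 := h.le_abs_smul hc (a.2 - a'.2)
    have h5 : |a.1 - a'.1| ≤ ‖a - a'‖ := by
      have := norm_fst_le (a - a'); simpa [Real.norm_eq_abs] using this
    have h6 : |a.2 - a'.2| ≤ ‖a - a'‖ := by
      have := norm_snd_le (a - a'); simpa [Real.norm_eq_abs] using this
    have h7 := mul_le_mul_of_nonneg_right h5 (h.nonneg b)
    have h8 := mul_le_mul_of_nonneg_right h6 (h.nonneg c)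
    simp only [hp]
    linarith [h.nonneg b, h.nonneg c]
  have hlip : LipschitzWith (Real.toNNReal (ρ b + ρ c)) p := by
    refine LipschitzWith.of_dist_le_mul fun a a' => ?_
    rw [Real.dist_eq, Real.coe_toNNReal _ (by have := h.nonneg b; have := h.nonneg c; linarith),
      dist_eq_norm, abs_le]
    constructor
    · have := hlip1 a' a
      rw [norm_sub_rev] at this
      linarith
    · exact hlip1 a a'
  have hae : ∀ᵐ a ∂(volume : Measure (ℝ × ℝ)), DifferentiableAt ℝ p a := hlip.ae_differentiableAt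
  have hd : Dense {a | DifferentiableAt ℝ p a} := Measure.dense_of_ae hae
  have hopen : IsOpen {a : ℝ × ℝ | 0 < a.1 ∧ 0 < a.2 ∧ a.1 * ρ b + a.2 * ρ c < ρ w / 2} := by
    refine IsOpen.inter (isOpen_lt continuous_const continuous_fst) ?_
    refine IsOpen.inter (isOpen_lt continuous_const continuous_snd) ?_
    exact isOpen_lt ((continuous_fst.mul continuous_const).add
      (continuous_snd.mul continuous_const)) continuous_const
  have hne : {a : ℝ × ℝ | 0 < a.1 ∧ 0 < a.2 ∧ a.1 * ρ b + a.2 * ρ c < ρ w / 2}.Nonempty := by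
    have hb0 := h.nonneg b
    have hc0 := h.nonneg c
    set t : ℝ := ρ w / (4 * (ρ b + ρ c + 1)) with ht
    have htpos : 0 < t := by positivity
    refine ⟨(t, t), htpos, htpos, ?_⟩
    have : t * (4 * (ρ b + ρ c + 1)) = ρ w := by
      rw [ht]; field_simp
    simp only
    nlinarith
  obtain ⟨a, ⟨ha1, ha2, ha3⟩, hda⟩ := hd.inter_open_nonempty _ hopen hne
  obtain ⟨p', hp'⟩ : ∃ p', HasFDerivAt p p' a := ⟨_, hda.hasFDerivAt⟩
  set z := w + a.1 • b + a.2 • c with hz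
  have hpa : p a = ρ z := rfl
  have hzw : ρ w ≤ ρ z := by
    have := h.mono w (h.add_pos (h.smul_pos hb ha1.le) (h.smul_pos hc ha2.le))
    rwa [← add_assoc] at this
  obtain ⟨e, he0, hez, κ, hκ, heκ⟩ := h.expose z (by linarith)
  -- slices
  have key : ∀ v : ℝ × ℝ, ∀ ε : ℝ, 0 < ε → ∃ η : ℝ, 0 < η ∧ ∀ s : ℝ, |s| ≤ η →
      |p (a + s • v) - p a - s * p' v| ≤ ε * |s| := by
    intro v ε hε
    have hline : HasDerivAt (fun s : ℝ => p (a + s • v)) (p' v) 0 := by
      have h1 : HasDerivAt (fun s : ℝ => a + s • v) v 0 := by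
        simpa using ((hasDerivAt_id (0 : ℝ)).smul_const v).const_add a
      have h2 : HasFDerivAt p p' ((fun s : ℝ => a + s • v) 0) := by simpa using hp'
      exact h2.comp_hasDerivAt 0 h1
    rw [hasDerivAt_iff_isLittleO] at hline
    have := hline.def hε
    rw [Metric.eventually_nhds_iff] at this
    obtain ⟨η, hη, hη'⟩ := this
    refine ⟨η / 2, by positivity, fun s hs => ?_⟩
    have := @hη' s (by rw [Real.dist_eq, sub_zero]; linarith)
    simpa [Real.norm_eq_abs] using this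
  have hκ1 : 0 < 1 + 1 / κ := by positivity
  refine ⟨e, he0, by rw [hez]; linarith, p' (1, 0), p' (0, 1), ρ w / 4, by positivity,
    fun ε hε => ?_⟩
  obtain ⟨η₁, hη₁, H₁⟩ := key (1, 0) (ε / 2) (by positivity)
  obtain ⟨η₂, hη₂, H₂⟩ := key (0, 1) (ε / 2) (by positivity)
  set η := min η₁ η₂ with hη
  have hηpos : 0 < η := lt_min hη₁ hη₂
  set θ := min (ε * η / (2 * (1 + 1 / κ))) (ρ w / (4 * (1 + 1 / κ))) with hθ
  have hθpos : 0 < θ := by
    refine lt_min ?_ ?_ <;> positivity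
  have hθ1 : θ * (1 + 1 / κ) ≤ ε * η / 2 := by
    have : θ ≤ ε * η / (2 * (1 + 1 / κ)) := min_le_left _ _
    rw [le_div_iff₀ (by positivity)] at this
    linarith
  have hθ2 : θ * (1 + 1 / κ) ≤ ρ w / 4 := by
    have : θ ≤ ρ w / (4 * (1 + 1 / κ)) := min_le_right _ _
    rw [le_div_iff₀ (by positivity)] at this
    linarith
  refine ⟨θ, hθpos, fun ψ hψ hψe => ?_⟩
  -- ψ almost norms z
  have hψz : ρ z - θ * (1 + 1 / κ) ≤ ψ z := by
    have h1 : ψ e + κ * (ψ e - ψ z) ≤ ρ e := by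
      have := (hψ _).trans heκ
      simpa [map_add, map_smul, map_sub] using this
    have h2 : κ * (ψ e - ψ z) ≤ θ := by linarith
    have h3 : ψ e - ψ z ≤ θ / κ := by
      rw [le_div_iff₀ hκ]; linarith
    have h4 : θ * (1 + 1 / κ) = θ + θ / κ := by ring
    rw [h4, ← hez]
    linarith
  have hslice : ∀ s t : ℝ, ψ z + s * ψ b + t * ψ c ≤ p (a + (s, t)) := by
    intro s t
    have h1 : w + (a + (s, t)).1 • b + (a + (s, t)).2 • c = z + s • b + t • c := by
      simp only [Prod.fst_add, Prod.snd_add, add_smul, hz]; abel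
    have h2 := hψ (z + s • b + t • c)
    simp only [map_add, map_smul, smul_eq_mul] at h2
    simp only [hp]
    rw [h1]
    exact h2
  have gen : ∀ (f : ℝ → ℝ) (d x : ℝ), (∀ s, |s| ≤ η → |f s - ρ z - s * d| ≤ ε / 2 * |s|) →
      (∀ s, ψ z + s * x ≤ f s) → |x - d| ≤ ε := by
    intro f d x hf1 hf2
    have hA := hf1 η (by rw [abs_of_pos hηpos])
    have hB := hf1 (-η) (by rw [abs_neg, abs_of_pos hηpos])
    rw [abs_of_pos hηpos] at hA
    rw [abs_neg, abs_of_pos hηpos] at hB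
    have hA' := (abs_le.1 hA).2
    have hB' := (abs_le.1 hB).2
    have hA2 := hf2 η
    have hB2 := hf2 (-η)
    rw [abs_le]
    constructor
    · have : 0 ≤ η * (ε - (d - x)) := by nlinarith
      have := nonneg_of_mul_nonneg_right this hηpos
      linarith
    · have : 0 ≤ η * (ε - (x - d)) := by nlinarith
      have := nonneg_of_mul_nonneg_right this hηpos
      linarith
  refine ⟨?_, ?_, ?_⟩
  · refine gen (fun s => p (a + s • (1, 0))) _ _ (fun s hs => ?_) (fun s => ?_)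
    · exact H₁ s (hs.trans (min_le_left _ _))
    · have := hslice s 0
      simpa using this
  · refine gen (fun s => p (a + s • (0, 1))) _ _ (fun s hs => ?_) (fun s => ?_)
    · exact H₂ s (hs.trans (min_le_right _ _))
    · have := hslice 0 s
      simpa using this
  · have h1 : ψ z = ψ w + a.1 * ψ b + a.2 * ψ c := by
      simp [hz, map_add, map_smul]
    have h2 := mul_le_mul_of_nonneg_left (hψ b) ha1.le
    have h3 := mul_le_mul_of_nonneg_left (hψ c) ha2.le
    linarith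

section Main

variable {M : Type*} [AddCommSemigroup M] {T : M → V}

/-- `T (f + g) ≤ T g + N f` type estimates. -/
lemma T_bound (h : Gauge ρ) (hpos : ∀ m, ρ (-T m) = 0) (hsurj : ∀ v, ρ (-v) = 0 → ∃ m, T m = v)
    (hT : ∀ f g, ρ (T f + T g) = ρ (T (f + g))) (f g : M) (t : ℝ) (ht : 0 ≤ t)
    (H : ∀ k, ρ (T (f + k)) ≤ ρ (T (g + k)) + t) : ρ (T f - T g) ≤ t := by
  refine h.test _ _ (hpos f) (hpos g) t ht fun b hb => ?_
  obtain ⟨k, rfl⟩ := hsurj b hb
  rw [hT, hT]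
  exact H k

/-- Step 1: `T (2 f) = 2 T f`. -/
lemma step1 (h : Gauge ρ) (hpos : ∀ m, ρ (-T m) = 0) (hsurj : ∀ v, ρ (-v) = 0 → ∃ m, T m = v)
    (hT : ∀ f g, ρ (T f + T g) = ρ (T (f + g))) (f : M) :
    T (f + f) = (2 : ℝ) • T f := by
  have N2 : ∀ k, ρ (T (k + k)) = 2 * ρ (T k) := by
    intro k
    rw [← hT, ← two_smul ℝ (T k), h.smul 2 _ (by norm_num)]
  -- half of `T (2 f)` is below `T f`
  have half : ∀ f : M, ρ ((1 / 2 : ℝ) • T (f + f) - T f) = 0 := by
    intro f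
    refine le_antisymm ?_ (h.nonneg _)
    by_contra hcon
    push Not at hcon
    obtain ⟨e, he0, hepos, β, γ, δ, hδ, hexp⟩ :=
      h.exposing _ (T f) (T f) hcon (hpos f) (hpos f)
    obtain ⟨θ, hθ, Hθ⟩ := hexp (δ / 4) (by positivity)
    have hb0 := h.nonneg (T f)
    set s : ℝ := (ρ (T f) + 1) / θ with hs
    have hspos : 0 < s := by positivity
    obtain ⟨k, hk⟩ := hsurj (s • e) (h.smul_pos he0 hspos.le)
    have hNk : ρ (T k) = s * ρ e := by rw [hk, h.smul s e hspos]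
    obtain ⟨ψ, hψ, hψn⟩ := h.norming (T (k + k))
    have hψ2 : ψ (T (k + k)) = 2 * (s * ρ e) := by rw [hψn, N2, hNk]
    have hle : ρ (T (k + k) - T k) ≤ s * ρ e := by
      rw [← hNk]
      refine h.T_bound hpos hsurj hT _ _ _ (h.nonneg _) fun m => ?_
      have : k + k + m = (k + m) + k := add_right_comm k k m
      rw [this, ← hT]
      exact h.add _ _
    have hψe : ρ e ≤ ψ e := by
      have h1 := (hψ _).trans hle
      rw [map_sub, hψ2, hk, map_smul, smul_eq_mul] at h1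
      have h2 : s * ρ e ≤ s * ψ e := by linarith
      exact le_of_mul_le_mul_left h2 hspos
    obtain ⟨hψ1, -, hψw⟩ := Hθ ψ hψ (by linarith)
    -- lower bound
    have hlow : s * ρ e + ψ ((1 / 2 : ℝ) • T (f + f)) ≤ ρ (T f + s • e) := by
      have e1 : ρ (T f + s • e) = ρ ((1 / 2 : ℝ) • T (k + k) + (1 / 2 : ℝ) • T (f + f)) := by
        rw [← smul_add, h.smul _ _ (by norm_num), hT, ← hk, hT]
        have : k + k + (f + f) = (f + k) + (f + k) := by
          rw [add_add_add_comm, add_comm k f]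
        rw [this, N2]
        ring
      rw [e1]
      refine le_trans ?_ (hψ _)
      rw [map_add, map_smul ψ (1 / 2 : ℝ) (T (k + k)), hψ2, smul_eq_mul]
      linarith
    -- upper bound
    obtain ⟨η, hη, hηn⟩ := h.norming (T f + s • e)
    have hηe : ρ e - θ ≤ η e := by
      have h1 : s * ρ e ≤ ρ (T f + s • e) := by
        have := h.mono (s • e) (hpos f)
        rwa [add_comm, h.smul s e hspos] at this
      rw [← hηn, map_add, map_smul, smul_eq_mul] at h1
      have h2 := hη (T f)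
      have h3 : s * (ρ e - η e) ≤ ρ (T f) := by linarith
      have h4 : s * θ = ρ (T f) + 1 := by rw [hs]; field_simp
      have h5 : s * (ρ e - η e) ≤ s * θ := by linarith
      have := le_of_mul_le_mul_left h5 hspos
      linarith
    obtain ⟨hη1, -, -⟩ := Hθ η hη hηe
    have hup : ρ (T f + s • e) ≤ s * ρ e + η (T f) := by
      rw [← hηn, map_add, map_smul, smul_eq_mul]
      have := mul_le_mul_of_nonneg_left (hη e) hspos.le
      linarith
    rw [map_sub] at hψw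
    have h1 := (abs_le.1 hψ1).1
    have h2 := (abs_le.1 hη1).2
    linarith
  -- the reverse
  have e1 : ρ (T f - (1 / 2 : ℝ) • T (f + f)) ≤ 0 := by
    refine h.test _ _ (hpos f) (h.smul_pos (hpos _) (by norm_num)) 0 le_rfl fun b hb => ?_
    obtain ⟨k, rfl⟩ := hsurj b hb
    rw [add_zero, hT]
    have h1 : ρ (T (f + k)) = ρ ((1 / 2 : ℝ) • T (f + f) + (1 / 2 : ℝ) • T (k + k)) := by
      rw [← smul_add, h.smul _ _ (by norm_num), hT, add_add_add_comm, N2]
      ring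
    rw [h1]
    have h2 : (1 / 2 : ℝ) • T (f + f) + (1 / 2 : ℝ) • T (k + k) =
        ((1 / 2 : ℝ) • T (f + f) + T k) + ((1 / 2 : ℝ) • T (k + k) - T k) := by abel
    rw [h2]
    refine (h.add _ _).trans ?_
    rw [half k, add_zero]
  have e2 := h.sep ((1 / 2 : ℝ) • T (f + f) - T f) (half f) (by
    rw [neg_sub]; exact le_antisymm e1 (h.nonneg _))
  have e3 : (1 / 2 : ℝ) • T (f + f) = T f := sub_eq_zero.1 e2
  rw [← e3, smul_smul]
  norm_num

/-- Step 2: `T (f + g) ≤ T f + T g`. -/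
lemma step2 (h : Gauge ρ) (hpos : ∀ m, ρ (-T m) = 0) (hsurj : ∀ v, ρ (-v) = 0 → ∃ m, T m = v)
    (hT : ∀ f g, ρ (T f + T g) = ρ (T (f + g))) (f g : M) :
    ρ (T (f + g) - (T f + T g)) = 0 := by
  refine le_antisymm ?_ (h.nonneg _)
  by_contra hcon
  push Not at hcon
  obtain ⟨e, he0, hepos, β, γ, δ, hδ, hexp⟩ :=
    h.exposing _ (T f) (T g) hcon (hpos f) (hpos g)
  obtain ⟨θ, hθ, Hθ⟩ := hexp (δ / 8) (by positivity)
  have hf0 := h.nonneg (T f)
  have hg0 := h.nonneg (T g)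
  set s : ℝ := (ρ (T f) + ρ (T g) + 1) / θ with hs
  have hspos : 0 < s := by positivity
  have hsθ : s * θ = ρ (T f) + ρ (T g) + 1 := by rw [hs]; field_simp
  obtain ⟨k, hk⟩ := hsurj (s • e) (h.smul_pos he0 hspos.le)
  have hkk : T (k + k) = (2 : ℝ) • (s • e) := by rw [h.step1 hpos hsurj hT, hk]
  -- main inequality
  have hmain : ρ ((2 : ℝ) • (s • e) + T (f + g)) ≤ ρ (s • e + T f) + ρ (s • e + T g) := by
    rw [← hkk, hT, add_add_add_comm, ← hT, ← hk, hT k f, hT k g]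
    exact h.add _ _
  -- norming functional of `e`
  obtain ⟨ψ, hψ, hψe⟩ := h.norming e
  obtain ⟨hψ1, hψ2, hψw⟩ := Hθ ψ hψ (by linarith)
  have hlow : 2 * (s * ρ e) + ψ (T (f + g)) ≤ ρ ((2 : ℝ) • (s • e) + T (f + g)) := by
    refine le_trans ?_ (hψ _)
    rw [map_add, map_smul, map_smul, hψe, smul_eq_mul, smul_eq_mul]
  -- upper bounds
  have hup : ∀ m : M, ρ (T m) ≤ ρ (T f) + ρ (T g) → ∃ η : V →ₗ[ℝ] ℝ, (∀ v, η v ≤ ρ v) ∧
      ρ e - θ ≤ η e ∧ ρ (s • e + T m) ≤ s * ρ e + η (T m) := by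
    intro m hm
    obtain ⟨η, hη, hηn⟩ := h.norming (s • e + T m)
    refine ⟨η, hη, ?_, ?_⟩
    · have h1 : s * ρ e ≤ ρ (s • e + T m) := by
        have := h.mono (s • e) (hpos m)
        rwa [h.smul s e hspos] at this
      rw [← hηn, map_add, map_smul, smul_eq_mul] at h1
      have h2 := hη (T m)
      have h5 : s * (ρ e - η e) ≤ s * θ := by linarith
      have := le_of_mul_le_mul_left h5 hspos
      linarith
    · rw [← hηn, map_add, map_smul, smul_eq_mul]
      have := mul_le_mul_of_nonneg_left (hη e) hspos.le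
      linarith
  obtain ⟨η, hη, hηe, hηup⟩ := hup f (by linarith)
  obtain ⟨ζ, hζ, hζe, hζup⟩ := hup g (by linarith)
  obtain ⟨hη1, -, -⟩ := Hθ η hη hηe
  obtain ⟨-, hζ1, -⟩ := Hθ ζ hζ hζe
  rw [map_sub, map_add] at hψw
  have h1 := (abs_le.1 hψ1).1
  have h2 := (abs_le.1 hψ2).1
  have h3 := (abs_le.1 hη1).2
  have h4 := (abs_le.1 hζ1).2
  linarith

/-- Step 3: `T f + T g ≤ T (f + g)`. -/
lemma step3 (h : Gauge ρ) (hpos : ∀ m, ρ (-T m) = 0) (hsurj : ∀ v, ρ (-v) = 0 → ∃ m, T m = v)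
    (hT : ∀ f g, ρ (T f + T g) = ρ (T (f + g))) (f g : M) :
    ρ ((T f + T g) - T (f + g)) = 0 := by
  refine le_antisymm ?_ (h.nonneg _)
  by_contra hcon
  push Not at hcon
  obtain ⟨e, he0, hepos, β, γ, δ, hδ, hexp⟩ :=
    h.exposing _ (T f) (T g) hcon (hpos f) (hpos g)
  obtain ⟨θ, hθ, Hθ⟩ := hexp (δ / 8) (by positivity)
  have hf0 := h.nonneg (T f)
  have hg0 := h.nonneg (T g)
  have hfg0 := h.nonneg (T (f + g))
  set s : ℝ := (ρ (T f) + ρ (T g) + ρ (T (f + g)) + 1) / θ with hs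
  have hspos : 0 < s := by positivity
  have hsθ : s * θ = ρ (T f) + ρ (T g) + ρ (T (f + g)) + 1 := by rw [hs]; field_simp
  obtain ⟨k, hk⟩ := hsurj (s • e) (h.smul_pos he0 hspos.le)
  -- `y = T (k + f)`
  have hy : ρ (T (k + f)) = ρ (s • e + T f) := by rw [← hT, hk]
  obtain ⟨ψ, hψ, hψn⟩ := h.norming (T (k + f))
  have hyle : ψ (T (k + f)) ≤ s * ψ e + ψ (T f) := by
    have h1 := h.step2 hpos hsurj hT k f
    have h2 := hψ (T (k + f) - (T k + T f))
    rw [h1, map_sub, map_add, hk, map_smul, smul_eq_mul] at h2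
    linarith
  have hseb : s * ρ e ≤ ρ (s • e + T f) := by
    have := h.mono (s • e) (hpos f)
    rwa [h.smul s e hspos] at this
  have hψe : ρ e - θ ≤ ψ e := by
    have h2 := hψ (T f)
    have h5 : s * (ρ e - ψ e) ≤ s * θ := by linarith
    have := le_of_mul_le_mul_left h5 hspos
    linarith
  obtain ⟨-, hψ2, -⟩ := Hθ ψ hψ hψe
  -- lower bound for `ρ (s e + T f)`
  obtain ⟨χ, hχ, hχe⟩ := h.norming e
  obtain ⟨hχ1, -, -⟩ := Hθ χ hχ (by linarith)
  have hlow1 : s * ρ e + χ (T f) ≤ ρ (s • e + T f) := by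
    refine le_trans ?_ (hχ _)
    rw [map_add, map_smul, hχe, smul_eq_mul]
  have hlow : ρ (s • e + T f) + ψ (T g) ≤ ρ (s • e + T (f + g)) := by
    have h1 : ρ (s • e + T (f + g)) = ρ (T (k + f) + T g) := by
      rw [← hk, hT, hT, add_assoc]
    rw [h1, ← hy, ← hψn, ← map_add]
    exact hψ _
  -- upper bound
  obtain ⟨η, hη, hηn⟩ := h.norming (s • e + T (f + g))
  have hηe : ρ e - θ ≤ η e := by
    have h1 : s * ρ e ≤ ρ (s • e + T (f + g)) := by
      have := h.mono (s • e) (hpos (f + g))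
      rwa [h.smul s e hspos] at this
    rw [← hηn, map_add, map_smul, smul_eq_mul] at h1
    have h2 := hη (T (f + g))
    have h5 : s * (ρ e - η e) ≤ s * θ := by linarith
    have := le_of_mul_le_mul_left h5 hspos
    linarith
  obtain ⟨hη1, hη2, hη3⟩ := Hθ η hη hηe
  have hup : ρ (s • e + T (f + g)) ≤ s * ρ e + η (T (f + g)) := by
    rw [← hηn, map_add, map_smul, smul_eq_mul]
    have := mul_le_mul_of_nonneg_left (hη e) hspos.le
    linarith
  rw [map_sub, map_add] at hη3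
  have h1 := (abs_le.1 hψ2).1
  have h2 := (abs_le.1 hχ1).1
  have h3 := (abs_le.1 hη1).2
  have h4 := (abs_le.1 hη2).2
  linarith

/-- Every norm-additive surjection onto the cone is additive. -/
theorem additive (h : Gauge ρ) (hpos : ∀ m, ρ (-T m) = 0)
    (hsurj : ∀ v, ρ (-v) = 0 → ∃ m, T m = v)
    (hT : ∀ f g, ρ (T f + T g) = ρ (T (f + g))) (f g : M) :
    T (f + g) = T f + T g := by
  have h1 := h.step2 hpos hsurj hT f g
  have h2 := h.step3 hpos hsurj hT f g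
  exact sub_eq_zero.1 (h.sep _ h1 (by rwa [neg_sub]))

end Main

end Gauge

end Pool.Agent.H667R3.NormAdd
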