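import Mathlib
import Pool.Agent.H667R3.NormAddAbs

/-!
The self-adjoint part of a (possibly non-unital) C*-algebra with `ρ x = ‖x⁺‖` satisfies `Gauge`.
-/

set_option autoImplicit false

namespace Pool.Agent.H667R3.NormAdd

open Filter Topology CStarAlgebra CFC

variable {B : Type*} [NonUnitalCStarAlgebra B] [PartialOrder B] [StarOrderedRing B]

lemma pos_mul_self {v : B} (hv : IsSelfAdjoint v) : v⁺ * v = v⁺ * v⁺ := by
  have h0 : v⁺ * (v⁺ - v⁻) = v⁺ * v⁺ := by
    rw [mul_sub, CFC.posPart_mul_negPart, sub_zero]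
  rwa [CFC.posPart_sub_negPart v hv] at h0

lemma key {v : B} (hv : IsSelfAdjoint v) {t : ℝ} (ht : 0 ≤ t)
    (h : v⁺ * v * v⁺ ≤ t • (v⁺ * v⁺)) : ‖v⁺‖ ≤ t := by
  have hp : 0 ≤ v⁺ := posPart_nonneg v
  have hps : IsSelfAdjoint v⁺ := hp.isSelfAdjoint
  rw [pos_mul_self hv] at h
  have hn0 : 0 ≤ v⁺ * v⁺ * v⁺ := by
    have := hps.conjugate_nonneg hp
    simpa using this
  have h1 : ‖v⁺ * v⁺ * v⁺‖ ≤ t * ‖v⁺‖ ^ 2 := by
    have h2 := CStarAlgebra.norm_le_norm_of_nonneg_of_le hn0 h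
    rw [norm_smul, Real.norm_of_nonneg ht] at h2
    have h3 : ‖v⁺ * v⁺‖ = ‖v⁺‖ ^ 2 := by
      have := CStarRing.norm_self_mul_star (x := v⁺)
      rw [hps.star_eq] at this
      rw [this, sq]
    rwa [h3] at h2
  by_cases h0 : ‖v⁺‖ = 0
  · rw [h0]; exact ht
  have hpos : 0 < ‖v⁺‖ := lt_of_le_of_ne (norm_nonneg _) (Ne.symm h0)
  have h4 : ‖v⁺‖ ^ 4 ≤ ‖v⁺ * v⁺ * v⁺‖ * ‖v⁺‖ := by
    have h5 : ‖(v⁺ * v⁺) * (v⁺ * v⁺)‖ = ‖v⁺‖ ^ 4 := by
      have h6 : star (v⁺ * v⁺) = v⁺ * v⁺ := by rw [star_mul, hps.star_eq]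
      have h7 := CStarRing.norm_self_mul_star (x := v⁺ * v⁺)
      rw [h6] at h7
      have h3 : ‖v⁺ * v⁺‖ = ‖v⁺‖ ^ 2 := by
        have := CStarRing.norm_self_mul_star (x := v⁺)
        rw [hps.star_eq] at this
        rw [this, sq]
      rw [h7, h3]; ring
    rw [← h5, ← mul_assoc]
    exact norm_mul_le _ _
  have h8 : ‖v⁺‖ ^ 4 ≤ t * ‖v⁺‖ ^ 2 * ‖v⁺‖ :=
    h4.trans (mul_le_mul_of_nonneg_right h1 (norm_nonneg _))
  have h9 : ‖v⁺‖ * ‖v⁺‖ ^ 3 ≤ t * ‖v⁺‖ ^ 3 := by nlinarith
  exact le_of_mul_le_mul_right h9 (by positivity)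

lemma key' {v w : B} (hv : IsSelfAdjoint v) (hw : IsSelfAdjoint w) (h : v ≤ w) {t : ℝ} (ht : 0 ≤ t)
    (hwt : ‖w‖ ≤ t) : ‖v⁺‖ ≤ t := by
  refine key hv ht ?_
  have hps : IsSelfAdjoint v⁺ := (posPart_nonneg v).isSelfAdjoint
  have h1 : v⁺ * v * v⁺ ≤ v⁺ * w * v⁺ := hps.conjugate_le_conjugate h
  have h2 : v⁺ * w * v⁺ ≤ ‖w‖ • (v⁺ * v⁺) := by
    have := CStarAlgebra.star_left_conjugate_le_norm_smul (a := v⁺) (b := w) hw
    rwa [hps.star_eq] at this
  refine h1.trans (h2.trans ?_)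
  have h3 : 0 ≤ v⁺ * v⁺ := by
    have := mul_star_self_nonneg v⁺
    rwa [hps.star_eq] at this
  exact smul_le_smul_of_nonneg_right hwt h3

/-- The gauge `x ↦ ‖x⁺‖` on the self-adjoint part. -/
noncomputable def rho (x : selfAdjoint B) : ℝ := ‖(x : B)⁺‖

lemma rho_neg_eq_zero {x : selfAdjoint B} : rho (-x) = 0 ↔ 0 ≤ (x : B) := by
  unfold rho
  rw [norm_eq_zero, AddSubgroup.coe_neg, CFC.posPart_eq_zero_iff _ x.2.neg, neg_nonpos]

lemma rho_of_nonneg {x : selfAdjoint B} (hx : 0 ≤ (x : B)) : rho x = ‖(x : B)‖ := by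
  unfold rho
  rw [(CFC.posPart_eq_self (x : B)).2 hx]

lemma rho_le_of_le {x y : selfAdjoint B} (h : (x : B) ≤ y) : rho x ≤ ‖(y : B)‖ :=
  key' x.2 y.2 h (norm_nonneg _) le_rfl

theorem gauge : Gauge (rho : selfAdjoint B → ℝ) where
  add x y := by
    have h1 : (x : B) + y ≤ (x : B)⁺ + (y : B)⁺ :=
      add_le_add (CFC.le_posPart x.2) (CFC.le_posPart y.2)
    have h2 : IsSelfAdjoint ((x : B)⁺ + (y : B)⁺) :=
      (add_nonneg (posPart_nonneg (x : B)) (posPart_nonneg (y : B))).isSelfAdjoint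
    have h3 := key' (x + y).2 h2 h1 (t := ‖(x : B)⁺‖ + ‖(y : B)⁺‖) (by positivity)
      (norm_add_le _ _)
    exact h3
  smul t x ht := by
    unfold rho
    rw [selfAdjoint.val_smul, CFC.posPart_smul_of_nonneg ht.le, norm_smul, Real.norm_of_nonneg ht.le]
  nonneg x := norm_nonneg _
  sep x h1 h2 := by
    have h3 : 0 ≤ (x : B) := rho_neg_eq_zero.1 h2
    rw [rho_of_nonneg h3, norm_eq_zero] at h1
    exact Subtype.ext h1
  test y z hy hz t ht H := by
    rw [rho_neg_eq_zero] at hy hz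
    set v : B := (y : B) - z with hv
    have hvs : IsSelfAdjoint v := (y - z).2
    refine key hvs ht ?_
    set d := v⁺ with hd
    have hds : IsSelfAdjoint d := (posPart_nonneg v).isSelfAdjoint
    have hdd : 0 ≤ d * d := by
      have := mul_star_self_nonneg d
      rwa [hds.star_eq] at this
    have hau := CStarAlgebra.increasingApproximateUnit B
    -- pointwise estimate
    have hev : ∀ᶠ e in CStarAlgebra.approximateUnit B,
        d * ((y : B) + (‖(z : B)‖ • (e * e) - e * z * e)) * d ≤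
          (‖(z : B)‖ + ‖(z : B) - e * z * e‖ + t) • (d * d) := by
      filter_upwards [hau.eventually_nonneg, hau.eventually_norm] with e he0 he1
      have hes : IsSelfAdjoint e := he0.isSelfAdjoint
      have hee : 0 ≤ e * e := by
        have := mul_star_self_nonneg e
        rwa [hes.star_eq] at this
      have hb0 : 0 ≤ ‖(z : B)‖ • (e * e) - e * z * e := by
        have := CStarAlgebra.star_left_conjugate_le_norm_smul (a := e) (b := (z : B)) z.2
        rw [hes.star_eq] at this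
        exact sub_nonneg.2 this
      set b : selfAdjoint B := ⟨‖(z : B)‖ • (e * e) - e * z * e, hb0.isSelfAdjoint⟩ with hb
      have h1 := H b (rho_neg_eq_zero.2 hb0)
      rw [rho_of_nonneg (x := y + b) (add_nonneg hy hb0),
        rho_of_nonneg (x := z + b) (add_nonneg hz hb0)] at h1
      have h2 : ‖((z + b : selfAdjoint B) : B)‖ ≤ ‖(z : B)‖ + ‖(z : B) - e * z * e‖ := by
        have e1 : ((z + b : selfAdjoint B) : B) = ‖(z : B)‖ • (e * e) + ((z : B) - e * z * e) := by
          simp only [AddSubgroup.coe_add, hb]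
          abel
        rw [e1]
        refine (norm_add_le _ _).trans (add_le_add_left ?_ _)
        rw [norm_smul, Real.norm_of_nonneg (norm_nonneg _)]
        have : ‖e * e‖ ≤ 1 := (norm_mul_le _ _).trans (by nlinarith [norm_nonneg e])
        nlinarith [norm_nonneg (z : B)]
      have h3 := CStarAlgebra.star_left_conjugate_le_norm_smul (a := d)
        (b := ((y + b : selfAdjoint B) : B)) (y + b).2
      rw [hds.star_eq] at h3
      refine h3.trans ?_
      exact smul_le_smul_of_nonneg_right (by linarith) hdd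
    -- limits
    have hmulr := fun m : B => hau.tendsto_mul_left m
    have hmull := fun m : B => hau.tendsto_mul_right m
    have hzz : Tendsto (fun e : B => e * (z : B) * e) (CStarAlgebra.approximateUnit B)
        (𝓝 (z : B)) := by
      rw [tendsto_iff_norm_sub_tendsto_zero]
      have hA : Tendsto (fun e : B => ‖e * (z : B) - z‖ + ‖(z : B) * e - z‖)
          (CStarAlgebra.approximateUnit B) (𝓝 (0 + 0)) :=
        ((tendsto_iff_norm_sub_tendsto_zero.1 (hmull (z : B))).add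
          (tendsto_iff_norm_sub_tendsto_zero.1 (hmulr (z : B))))
      rw [add_zero] at hA
      refine tendsto_of_tendsto_of_tendsto_of_le_of_le' tendsto_const_nhds hA
        (Eventually.of_forall fun e => norm_nonneg _) ?_
      filter_upwards [hau.eventually_norm] with e he1
      have e1 : e * (z : B) * e - z = (e * (z : B) - z) * e + ((z : B) * e - z) := by
        rw [sub_mul]; abel
      rw [e1]
      refine (norm_add_le _ _).trans (add_le_add_left ?_ _)
      refine (norm_mul_le _ _).trans ?_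
      nlinarith [norm_nonneg (e * (z : B) - z)]
    have hleft : Tendsto (fun e : B => d * ((y : B) + (‖(z : B)‖ • (e * e) - e * z * e)) * d)
        (CStarAlgebra.approximateUnit B)
        (𝓝 (d * (y : B) * d + (‖(z : B)‖ • (d * d) - d * (z : B) * d))) := by
      have h1 : ∀ e : B, d * ((y : B) + (‖(z : B)‖ • (e * e) - e * z * e)) * d =
          d * (y : B) * d + (‖(z : B)‖ • ((d * e) * (e * d)) - d * (e * (z : B) * e) * d) := by
        intro e
        simp only [mul_add, add_mul, mul_sub, sub_mul, mul_smul_comm, smul_mul_assoc, mul_assoc]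
      simp_rw [h1]
      refine tendsto_const_nhds.add (Tendsto.sub ?_ ?_)
      · exact ((hmulr d).mul (hmull d)).const_smul _
      · exact (tendsto_const_nhds.mul hzz).mul tendsto_const_nhds
    have hright : Tendsto (fun e : B => (‖(z : B)‖ + ‖(z : B) - e * z * e‖ + t) • (d * d))
        (CStarAlgebra.approximateUnit B) (𝓝 ((‖(z : B)‖ + 0 + t) • (d * d))) := by
      refine Tendsto.smul_const ?_ _
      refine (tendsto_const_nhds.add ?_).add tendsto_const_nhds
      have := tendsto_iff_norm_sub_tendsto_zero.1 hzz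
      simp_rw [norm_sub_rev _ (z : B)] at this
      exact this
    have hlim := le_of_tendsto_of_tendsto hleft hright hev
    rw [add_zero, add_smul] at hlim
    have e2 : d * v * d = d * (y : B) * d - d * (z : B) * d := by
      rw [hv, mul_sub, sub_mul]
    rw [e2]
    have e3 : d * (y : B) * d + (‖(z : B)‖ • (d * d) - d * (z : B) * d) =
        ‖(z : B)‖ • (d * d) + (d * (y : B) * d - d * (z : B) * d) := by abel
    rw [e3] at hlim
    exact le_of_add_le_add_left hlim
  expose z hz := by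
    set x : B := (z : B) with hx
    have hp : 0 ≤ x⁺ := posPart_nonneg x
    have hn : 0 ≤ x⁻ := negPart_nonneg x
    refine ⟨⟨x⁺, hp.isSelfAdjoint⟩, rho_neg_eq_zero.2 hp, ?_, ?_⟩
    · rw [rho_of_nonneg (x := ⟨x⁺, hp.isSelfAdjoint⟩) hp]
      rfl
    have hz' : 0 < ‖x⁺‖ := hz
    refine ⟨‖x⁺‖ / (‖x⁻‖ + 1), by positivity, ?_⟩
    set κ := ‖x⁺‖ / (‖x⁻‖ + 1) with hκ
    have hκ0 : 0 < κ := by positivity
    have hκ1 : κ * ‖x⁻‖ ≤ ‖x⁺‖ := by
      rw [hκ, div_mul_eq_mul_div, div_le_iff₀ (by positivity)]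
      nlinarith [norm_nonneg x⁻]
    have hsum : (((⟨x⁺, hp.isSelfAdjoint⟩ : selfAdjoint B) +
        κ • ((⟨x⁺, hp.isSelfAdjoint⟩ : selfAdjoint B) - z) : selfAdjoint B) : B) =
        x⁺ + κ • x⁻ := by
      have h1 : x⁺ - x = x⁻ := by
        have := CFC.posPart_sub_negPart x z.2
        nth_rewrite 2 [← this]
        abel
      simp only [AddSubgroup.coe_add, selfAdjoint.val_smul, AddSubgroup.coe_sub]
      rw [← hx, h1]
    have hnn : 0 ≤ x⁺ + κ • x⁻ := add_nonneg hp (smul_nonneg hκ0.le hn)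
    rw [rho_of_nonneg (by rw [hsum]; exact hnn), hsum,
      rho_of_nonneg (x := ⟨x⁺, hp.isSelfAdjoint⟩) hp]
    rw [IsSelfAdjoint.norm_add_eq_max hp.isSelfAdjoint (smul_nonneg hκ0.le hn).isSelfAdjoint
      (by rw [mul_smul_comm, CFC.posPart_mul_negPart, smul_zero]), norm_smul,
      Real.norm_of_nonneg hκ0.le]
    exact max_le le_rfl hκ1

end Pool.Agent.H667R3.NormAdd
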