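import Pool.Agent.H667R3.W1

open Module Filter
open scoped Topology Nat PeriodPair

noncomputable section

namespace H667R3

variable (L : PeriodPair)

lemma summable_norm_E2_sub_one (z : ℂ) :
    Summable (fun l : L.lattice => ‖E2 (z / l) - 1‖) := by
  refine Summable.of_norm_bounded_eventually
    (g := fun l : L.lattice => 5 * (‖z‖ + 1) ^ 3 * (‖(l : ℂ)‖ ^ 3)⁻¹)
    ((summable_inv_cube' L).mul_left _) ?_
  filter_upwards [eventually_norm_ge L (‖z‖ + 1)] with l hl
  rw [norm_norm]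
  exact norm_E2_div_sub_one_le L (by positivity) l hl z (by linarith [norm_nonneg z])

lemma prodE2_ne_zero {z : ℂ} (hz : z ∉ L.lattice) : ∏' l : L.lattice, E2 (z / l) ≠ 0 := by
  have h := tprod_one_add_ne_zero_of_summable (R := ℂ) (f := fun l : L.lattice => E2 (z / l) - 1)
    ?_ ?_
  · simpa using h
  · intro l
    rw [add_sub_cancel, E2]
    refine mul_ne_zero ?_ (Complex.exp_ne_zero _)
    intro h
    by_cases hl : (l : ℂ) = 0
    · simp [hl] at h
    · rw [sub_eq_zero, eq_div_iff hl, one_mul] at h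
      exact hz (h ▸ l.2)
  · exact summable_norm_E2_sub_one L z

lemma sigma_ne_zero {z : ℂ} (hz : z ∉ L.lattice) : sigma L z ≠ 0 := by
  rw [sigma_eq]
  refine mul_ne_zero ?_ (prodE2_ne_zero L hz)
  rintro rfl
  exact hz (zero_mem _)

lemma sigma_zero : sigma L 0 = 0 := by simp [sigma]

lemma prodE2_zero : ∏' l : L.lattice, E2 ((0 : ℂ) / l) = 1 := by simp

lemma sigma_coe_eq_zero {z : ℂ} (hz : z ∈ L.lattice) : sigma L z = 0 := by
  by_cases h0 : z = 0
  · rw [h0, sigma_zero]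
  rw [sigma_eq]
  have : ∏' l : L.lattice, E2 (z / l) = 0 := by
    apply tprod_of_exists_eq_zero
    exact ⟨⟨z, hz⟩, by simp [E2, div_self h0]⟩
  rw [this, mul_zero]

lemma sigma_eq_zero_iff {z : ℂ} : sigma L z = 0 ↔ z ∈ L.lattice :=
  ⟨fun h => by_contra fun hz => sigma_ne_zero L hz h, sigma_coe_eq_zero L⟩

/-- growth of sigma (order 3 bound) -/
lemma norm_sigma_le : ∃ C : ℝ, 0 < C ∧ ∀ z : ℂ, ‖sigma L z‖ ≤ ‖z‖ * Real.exp (C * ‖z‖ ^ 3) := by
  refine ⟨5 * ∑' l : L.lattice, (‖(l : ℂ)‖ ^ 3)⁻¹ + 1, ?_, fun z => ?_⟩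
  · have : 0 ≤ ∑' l : L.lattice, (‖(l : ℂ)‖ ^ 3)⁻¹ := tsum_nonneg fun l => by positivity
    positivity
  rw [sigma_eq, norm_mul]
  gcongr
  have h := (multipliable_E2 L z).hasProd
  have h2 := h.norm
  refine le_of_tendsto h2 (.of_forall fun s => ?_)
  calc ∏ l ∈ s, ‖E2 (z / l)‖ ≤ ∏ l ∈ s, Real.exp (5 * ‖z / (l : ℂ)‖ ^ 3) :=
        Finset.prod_le_prod (fun _ _ => norm_nonneg _) (fun _ _ => norm_E2_le _)
    _ = Real.exp (∑ l ∈ s, 5 * ‖z / (l : ℂ)‖ ^ 3) := (Real.exp_sum _ _).symm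
    _ ≤ _ := by
      apply Real.exp_le_exp.mpr
      have : ∑ l ∈ s, 5 * ‖z / (l : ℂ)‖ ^ 3 = (5 * ∑ l ∈ s, (‖(l : ℂ)‖ ^ 3)⁻¹) * ‖z‖ ^ 3 := by
        rw [Finset.mul_sum, Finset.sum_mul]
        refine Finset.sum_congr rfl fun l _ => ?_
        rw [norm_div, div_pow, div_eq_mul_inv]; ring
      rw [this]
      gcongr
      have := (summable_inv_cube' L).sum_le_tsum s (fun l _ => by positivity)
      linarith

lemma logDeriv_E2_div {l z : ℂ} (hzl : z ≠ l) :
    logDeriv (fun z => E2 (z / l)) z = if l = 0 then 0 else 1 / (z - l) + 1 / l + z / l ^ 2 := by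
  split_ifs with hl
  · subst hl
    simp [logDeriv]
  · have h1 : HasDerivAt (fun z => E2 (z / l))
        (-((z / l) ^ 2) * Complex.exp (z / l + (z / l) ^ 2 / 2) * (1 / l)) z := by
      have h0 : HasDerivAt (fun z : ℂ => z / l) (1 / l) z := (hasDerivAt_id z).div_const l
      exact (hasDerivAt_E2 (z / l)).comp z h0
    rw [logDeriv_apply, h1.deriv, E2]
    have h2 : z - l ≠ 0 := sub_ne_zero.mpr hzl
    have h3 : 1 - z / l ≠ 0 := by
      rw [sub_ne_zero]; intro h; rw [eq_div_iff hl, one_mul] at h; exact hzl h.symm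
    have h4 := Complex.exp_ne_zero (z / l + (z / l) ^ 2 / 2)
    have h5 : l - z ≠ 0 := sub_ne_zero.mpr (Ne.symm hzl)
    field_simp
    ring

lemma zetaTerm_bound (r : ℝ) (hr : 0 < r) (s : ℂ) (hs : ‖s‖ < r) (l : ℂ) (h : 2 * r ≤ ‖l‖) :
    ‖1 / (s - l) + 1 / l + s / l ^ 2‖ ≤ 2 * r ^ 2 * ‖l‖ ^ (-3 : ℝ) := by
  have h1 : s ≠ ↑l := by rintro rfl; linarith
  have h2 : 0 < ‖l‖ := by linarith
  have hl : l ≠ 0 := by rintro rfl; simp at h2
  have h3 : s - l ≠ 0 := sub_ne_zero.mpr h1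
  have h4 : ‖l‖ / 2 ≤ ‖s - l‖ := by
    rw [norm_sub_rev]
    have := norm_sub_norm_le l s
    linarith
  have h5 : 1 / (s - l) + 1 / l + s / l ^ 2 = s ^ 2 / (l ^ 2 * (s - l)) := by
    field_simp
    ring
  rw [h5, norm_div, norm_mul, norm_pow, norm_pow]
  rw [Real.rpow_neg h2.le]
  norm_cast
  calc ‖s‖ ^ 2 / (‖l‖ ^ 2 * ‖s - l‖) ≤ r ^ 2 / (‖l‖ ^ 2 * (‖l‖ / 2)) := by gcongr
    _ = 2 * r ^ 2 * (‖l‖ ^ 3)⁻¹ := by field_simp

lemma hasSumLocallyUniformly_zeta :
    HasSumLocallyUniformly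
      (fun (l : L.lattice) (z : ℂ) ↦ 1 / (z - l) + 1 / l + z / l ^ 2) (zeta L) := by
  refine L.hasSumLocallyUniformly_aux (u := (2 * · ^ 2 * ‖·‖ ^ (-3 : ℝ))) _
    (fun _ _ ↦ (ZLattice.summable_norm_rpow _ _ (by simp; norm_num)).mul_left _) fun r hr ↦
    Filter.eventually_atTop.mpr ⟨2 * r, ?_⟩
  rintro _ h s hs l rfl
  exact zetaTerm_bound r hr s hs l h

lemma summable_zetaTerm (z : ℂ) :
    Summable (fun l : L.lattice => 1 / (z - l) + 1 / (l : ℂ) + z / (l : ℂ) ^ 2) :=
  (hasSumLocallyUniformly_zeta L).hasSum.summable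

lemma logDeriv_sigma {z : ℂ} (hz : z ∉ L.lattice) : logDeriv (sigma L) z = zeta L z := by
  have hz0 : z ≠ 0 := by rintro rfl; exact hz (zero_mem _)
  have hne : ∀ l : L.lattice, z ≠ l := fun l h => hz (h ▸ l.2)
  have hopen : IsOpen (L.lattice : Set ℂ)ᶜ := L.isClosed_lattice.isOpen_compl
  have hE : ∀ l : L.lattice, logDeriv (fun z => E2 (z / l)) z
      = if (l : ℂ) = 0 then 0 else 1 / (z - l) + 1 / l + z / l ^ 2 := fun l =>
    logDeriv_E2_div (hne l)
  have hsum : Summable fun l : L.lattice => logDeriv (fun z => E2 (z / l)) z := by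
    refine Summable.congr_cofinite (summable_zetaTerm L z) ?_
    have : ∀ᶠ l : L.lattice in cofinite, l ≠ 0 := by
      simp
    filter_upwards [this] with l hl
    rw [hE l, if_neg (by simpa using hl)]
  have h := logDeriv_tprod_eq_tsum (s := (L.lattice : Set ℂ)ᶜ) hopen (x := z) hz
    (f := fun (l : L.lattice) z => E2 (z / l)) ?_ ?_ hsum ?_ ?_
  · have h1 : logDeriv (sigma L) z = 1 / z + ∑' l : L.lattice, logDeriv (fun z => E2 (z / l)) z := by
      rw [← h]
      have : sigma L = fun z => z * ∏' l : L.lattice, E2 (z / l) := rfl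
      rw [this, logDeriv_mul (f := fun z => z) z hz0 (prodE2_ne_zero L hz) differentiableAt_id
        ((differentiable_prodE2 L) z)]
      congr 1
      simp [logDeriv]
    rw [h1, zeta]
    have h2 : (fun l : L.lattice => 1 / (z - l) + 1 / (l : ℂ) + z / (l : ℂ) ^ 2)
        = fun l : L.lattice => (if l = 0 then 1 / z else 0) + logDeriv (fun z => E2 (z / l)) z := by
      ext l
      rw [hE l]
      by_cases hl : l = 0
      · simp [hl]
      · have : (l : ℂ) ≠ 0 := by simpa using hl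
        simp [hl]
    rw [h2, Summable.tsum_add _ hsum, tsum_ite_eq]
    exact summable_of_hasFiniteSupport ((Set.finite_singleton (0 : L.lattice)).subset (by simp))
  · intro l
    rw [E2]
    refine mul_ne_zero ?_ (Complex.exp_ne_zero _)
    intro h
    by_cases hl : (l : ℂ) = 0
    · simp [hl] at h
    · rw [sub_eq_zero, eq_div_iff hl, one_mul] at h
      exact hz (h ▸ l.2)
  · intro l
    exact (differentiable_E2.comp (differentiable_id.div_const _)).differentiableOn
  · exact ⟨_, (hasProdLocallyUniformlyOn_E2 L).mono (Set.subset_univ _)⟩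
  · exact prodE2_ne_zero L hz

lemma deriv_sigma {z : ℂ} (hz : z ∉ L.lattice) : deriv (sigma L) z = zeta L z * sigma L z := by
  have h := logDeriv_sigma L hz
  rw [logDeriv_apply, div_eq_iff (sigma_ne_zero L hz)] at h
  exact h

lemma hasDerivAt_sigma {z : ℂ} (hz : z ∉ L.lattice) :
    HasDerivAt (sigma L) (zeta L z * sigma L z) z := by
  rw [← deriv_sigma L hz]
  exact (differentiable_sigma L z).hasDerivAt

lemma deriv_sigma_zero : deriv (sigma L) 0 = 1 := by
  have h : HasDerivAt (fun z => z * ∏' l : L.lattice, E2 (z / l))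
      (1 * (∏' l : L.lattice, E2 ((0 : ℂ) / l))
        + 0 * deriv (fun z => ∏' l : L.lattice, E2 (z / l)) 0) 0 :=
    (hasDerivAt_id (0 : ℂ)).mul ((differentiable_prodE2 L) 0).hasDerivAt
  have : sigma L = fun z => z * ∏' l : L.lattice, E2 (z / l) := rfl
  rw [this, h.deriv, prodE2_zero]
  simp

lemma differentiableOn_zeta : DifferentiableOn ℂ (zeta L) (L.lattice : Set ℂ)ᶜ := by
  refine (hasSumLocallyUniformly_zeta L).hasSumLocallyUniformlyOn.differentiableOn
    (.of_forall fun s ↦ .fun_sum fun i hi ↦ ?_) L.isClosed_lattice.isOpen_compl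
  refine .add (.add (.div (by fun_prop) (by fun_prop) ?_) (by fun_prop)) (by fun_prop)
  intro x hx
  have : x ≠ i := by rintro rfl; exact hx i.2
  simpa [sub_eq_zero]

open PeriodPair in
lemma eqOn_deriv_zeta : Set.EqOn (deriv (zeta L)) (fun z => - ℘[L] z) (L.lattice : Set ℂ)ᶜ := by
  have hopen : IsOpen (L.lattice : Set ℂ)ᶜ := L.isClosed_lattice.isOpen_compl
  refine ((hasSumLocallyUniformly_zeta L).tendstoLocallyUniformlyOn.deriv
    (.of_forall fun s ↦ ?_) hopen).unique ?_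
  · refine .fun_sum fun i hi ↦ ?_
    refine .add (.add (.div (by fun_prop) (by fun_prop) ?_) (by fun_prop)) (by fun_prop)
    intro x hx
    have : x ≠ i := by rintro rfl; exact hx i.2
    simpa [sub_eq_zero]
  · have h0 := L.hasSumLocallyUniformly_weierstrassP.tendstoLocallyUniformlyOn (s := (L.lattice : Set ℂ)ᶜ)
    have h1 := h0.neg
    refine h1.congr ?_
    intro s z hz
    simp only [Function.comp_apply, Pi.neg_apply]
    rw [deriv_fun_sum]
    · rw [← Finset.sum_neg_distrib]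
      refine Finset.sum_congr rfl fun l hl => ?_
      have hzl : z - l ≠ 0 := by
        rw [sub_ne_zero]; rintro rfl; exact hz l.2
      have : HasDerivAt (fun z : ℂ => 1 / (z - l) + 1 / (l : ℂ) + z / (l : ℂ) ^ 2)
          (-1 / (z - l) ^ 2 + 0 + 1 / (l : ℂ) ^ 2) z := by
        refine ((?_ : HasDerivAt (fun z : ℂ => 1 / (z - l)) _ z).add (hasDerivAt_const _ _)).add
          ((hasDerivAt_id z).div_const _)
        have := ((hasDerivAt_id z).sub_const (l : ℂ)).fun_inv hzl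
        simpa [one_div] using this
      rw [this.deriv]
      ring
    · intro l hl
      have hzl : z - l ≠ 0 := by
        rw [sub_ne_zero]; rintro rfl; exact hz l.2
      exact .add (.add (.div (by fun_prop) (by fun_prop) hzl) (by fun_prop)) (by fun_prop)

open PeriodPair in
lemma hasDerivAt_zeta {z : ℂ} (hz : z ∉ L.lattice) : HasDerivAt (zeta L) (- ℘[L] z) z := by
  have h : DifferentiableAt ℂ (zeta L) z :=
    (differentiableOn_zeta L z hz).differentiableAt (L.isClosed_lattice.isOpen_compl.mem_nhds hz)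
  have := h.hasDerivAt
  rwa [eqOn_deriv_zeta L hz] at this

open PeriodPair in
lemma hasDerivAt_weierstrassP {z : ℂ} (hz : z ∉ L.lattice) : HasDerivAt ℘[L] (℘'[L] z) z := by
  have h : DifferentiableAt ℂ ℘[L] z :=
    (L.differentiableOn_weierstrassP z hz).differentiableAt
      (L.isClosed_lattice.isOpen_compl.mem_nhds hz)
  have := h.hasDerivAt
  rwa [L.deriv_weierstrassP] at this

lemma zeta_neg (z : ℂ) : zeta L (-z) = - zeta L z := by
  simp only [zeta]
  rw [← (Equiv.neg L.lattice).tsum_eq, ← tsum_neg]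
  congr with l
  simp only [Equiv.neg_apply, NegMemClass.coe_neg]
  rw [show -z - -(l : ℂ) = -(z - l) by ring, one_div, one_div, inv_neg, neg_sq]
  ring

lemma sigma_neg (z : ℂ) : sigma L (-z) = - sigma L z := by
  rw [sigma_eq, sigma_eq, ← (Equiv.neg L.lattice).tprod_eq]
  simp

end H667R3
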