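import Pool.Agent.H667R3.W3

open Module Filter
open scoped Topology Nat PeriodPair

noncomputable section

namespace H667R3

variable (L : PeriodPair)

/-- `σ(z) = z Π(z)` -/
def Pi' (z : ℂ) : ℂ := ∏' l : L.lattice, E2 (z / l)

lemma differentiable_Pi' : Differentiable ℂ (Pi' L) := differentiable_prodE2 L

lemma sigma_eq_mul (z : ℂ) : sigma L z = z * Pi' L z := rfl

lemma Pi'_zero : Pi' L 0 = 1 := prodE2_zero L

lemma Pi'_neg (z : ℂ) : Pi' L (-z) = Pi' L z := by
  rw [Pi', Pi', ← (Equiv.neg L.lattice).tprod_eq]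
  simp

/-- an even entire function vanishing at `0` is `z²` times an entire function -/
lemma even_factor (k : ℂ → ℂ) (hk : Differentiable ℂ k) (heven : ∀ z, k (-z) = k z)
    (h0 : k 0 = 0) : ∃ k₂ : ℂ → ℂ, Differentiable ℂ k₂ ∧ ∀ z, k z = z ^ 2 * k₂ z := by
  have hd1 : Differentiable ℂ (dslope k 0) := by
    have := (Complex.differentiableOn_dslope (f := k) (s := Set.univ) (c := 0) univ_mem).mpr
      hk.differentiableOn
    exact differentiableOn_univ.mp this
  have hd2 : Differentiable ℂ (dslope (dslope k 0) 0) := by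
    have := (Complex.differentiableOn_dslope (f := dslope k 0) (s := Set.univ) (c := 0) univ_mem).mpr
      hd1.differentiableOn
    exact differentiableOn_univ.mp this
  have hderiv : deriv k 0 = 0 := by
    have h1 : HasDerivAt (fun z => k (-z)) (-(deriv k 0)) 0 := by
      have h2 : HasDerivAt k (deriv k 0) (-0) := by simpa using (hk 0).hasDerivAt
      have h3 := h2.comp (0 : ℂ) (hasDerivAt_neg (0 : ℂ))
      simpa [Function.comp_def] using h3
    have h4 : (fun z => k (-z)) = k := funext heven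
    rw [h4] at h1
    have h5 := h1.deriv
    have : (2 : ℂ) * deriv k 0 = 0 := by linear_combination h5
    simpa using this
  refine ⟨dslope (dslope k 0) 0, hd2, fun z => ?_⟩
  have e1 : (z - 0) • dslope k 0 z = k z - k 0 := sub_smul_dslope k 0 z
  have e2 : (z - 0) • dslope (dslope k 0) 0 z = dslope k 0 z - dslope k 0 0 :=
    sub_smul_dslope (dslope k 0) 0 z
  rw [dslope_same, hderiv] at e2
  simp only [smul_eq_mul, sub_zero] at e1 e2
  rw [h0, sub_zero] at e1
  rw [← e1, ← e2]; ring

/-- key identity `℘(z) - ℘(w) = - σ(z+w) σ(z-w) / (σ(z)² σ(w)²)` -/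
lemma wp_sub_wp {z w : ℂ} (hz : z ∉ L.lattice) (hw : w ∉ L.lattice) :
    ℘[L] z - ℘[L] w = - (sigma L (z + w) * sigma L (z - w)) / (sigma L z ^ 2 * sigma L w ^ 2) := by
  have hsw := sigma_ne_zero L hw
  set g : ℂ → ℂ := fun z =>
    ℘[L] z - ℘[L] w + (sigma L (z + w) * sigma L (z - w)) / (sigma L z ^ 2 * sigma L w ^ 2) with hg
  have hsd := differentiable_sigma L
  have hd : ∀ z, z ∉ L.lattice → DifferentiableAt ℂ g z := by
    intro z hz
    have h1 := (hasDerivAt_weierstrassP L hz).differentiableAt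
    have h2 := sigma_ne_zero L hz
    refine (h1.sub_const _).add ?_
    refine DifferentiableAt.div ?_ ?_ (mul_ne_zero (pow_ne_zero _ h2) (pow_ne_zero _ hsw))
    · exact (hsd.comp (differentiable_id.add_const w) z).mul
        (hsd.comp (differentiable_id.sub_const w) z)
    · exact ((hsd z).pow 2).mul_const _
  have hper : ∀ z, z ∉ L.lattice → ∀ l ∈ L.lattice, g (z + l) = g z := by
    intro z hz l hl
    obtain ⟨C, hC, hCs⟩ := sigma_add_coe L hl
    simp only [hg]
    rw [L.weierstrassP_add_coe z ⟨l, hl⟩]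
    congr 1
    rw [show z + l + w = (z + w) + l by ring, show z + l - w = (z - w) + l by ring,
      hCs, hCs, hCs]
    have h2 := sigma_ne_zero L hz
    have he : Complex.exp (eta L l * (z + w)) * Complex.exp (eta L l * (z - w))
        = Complex.exp (eta L l * z) ^ 2 := by
      rw [← Complex.exp_add, ← Complex.exp_nat_mul]
      congr 1; push_cast; ring
    have hne := Complex.exp_ne_zero (eta L l * z)
    rw [div_eq_div_iff (by positivity) (by positivity)]
    linear_combination (C ^ 2 * sigma L (z + w) * sigma L (z - w) * sigma L z ^ 2 * sigma L w ^ 2) * he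
  -- behaviour near zero
  set k : ℂ → ℂ := fun z => Pi' L z ^ 2 + sigma L (z + w) * sigma L (z - w) / sigma L w ^ 2 with hk
  have hkd : Differentiable ℂ k := by
    refine ((differentiable_Pi' L).pow 2).add (Differentiable.div_const ?_ _)
    exact (hsd.comp (differentiable_id.add_const w)).mul
        (hsd.comp (differentiable_id.sub_const w))
  have hke : ∀ z, k (-z) = k z := by
    intro z
    simp only [hk]
    rw [Pi'_neg, show -z + w = -(z - w) by ring, show -z - w = -(z + w) by ring, sigma_neg,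
      sigma_neg]
    ring
  have hk0 : k 0 = 0 := by
    simp only [hk]
    rw [Pi'_zero, zero_add, zero_sub, sigma_neg]
    field_simp
    ring
  obtain ⟨k₂, hk₂d, hk₂⟩ := even_factor k hkd hke hk0
  have hG := eq_of_periodic L g hd hper (fun z => ℘[L - (0 : ℂ)] z - ℘[L] w + k₂ z / Pi' L z ^ 2)
    ?_ ?_
  · have h1 := hG z w hz hw
    have h2 : g w = 0 := by simp [hg, sigma_zero]
    rw [h2] at h1
    simp only [hg] at h1
    rw [neg_div]
    linear_combination h1
  · refine ((((L.analyticAt_weierstrassPExcept 0)).differentiableAt).sub_const _).add ?_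
    refine (hk₂d 0).div ((differentiable_Pi' L 0).pow 2) ?_
    rw [Pi'_zero]; simp
  · have h1 : ∀ᶠ z in 𝓝[≠] (0 : ℂ), z ∉ L.lattice := by
      filter_upwards [self_mem_nhdsWithin, mem_nhdsWithin_of_mem_nhds
        (L.compl_lattice_sdiff_singleton_mem_nhds 0)] with w hw hw'
      simp_all
    filter_upwards [h1, self_mem_nhdsWithin] with z hz hz0
    have hz0' : z ≠ 0 := hz0
    have hP : Pi' L z ≠ 0 := prodE2_ne_zero L hz
    have e1 := hk₂ z
    simp only [hk] at e1
    have e2 : ℘[L] z = ℘[L - (0 : ℂ)] z + 1 / z ^ 2 := by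
      have := L.weierstrassPExcept_add (0 : L.lattice) z
      simp at this
      rw [← this]; simp
    simp only [hg]
    rw [e2, sigma_eq_mul L z]
    have e3 : sigma L (z + w) * sigma L (z - w) = (z ^ 2 * k₂ z - Pi' L z ^ 2) * sigma L w ^ 2 := by
      rw [← e1]; field_simp; ring
    rw [e3]
    field_simp
    ring

lemma wp_eq_iff {z w : ℂ} (hz : z ∉ L.lattice) (hw : w ∉ L.lattice) :
    ℘[L] z = ℘[L] w ↔ (z + w ∈ L.lattice ∨ z - w ∈ L.lattice) := by
  have h := wp_sub_wp L hz hw
  have h1 := sigma_ne_zero L hz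
  have h2 := sigma_ne_zero L hw
  rw [← sub_eq_zero, h, div_eq_zero_iff, neg_eq_zero, mul_eq_zero, sigma_eq_zero_iff,
    sigma_eq_zero_iff]
  have : sigma L z ^ 2 * sigma L w ^ 2 ≠ 0 := by positivity
  tauto

/-- `℘'(z) = - σ(2z)/σ(z)⁴` -/
lemma wp'_eq {z : ℂ} (hz : z ∉ L.lattice) :
    ℘'[L] z = - sigma L (2 * z) / sigma L z ^ 4 := by
  have hsz := sigma_ne_zero L hz
  have hsd := differentiable_sigma L
  have h1 : HasDerivAt (fun x => ℘[L] x - ℘[L] z) (℘'[L] z) z :=
    (hasDerivAt_weierstrassP L hz).sub_const _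
  have h2 : HasDerivAt (fun x => (- sigma L (x + z) / (sigma L x ^ 2 * sigma L z ^ 2))
      * sigma L (x - z)) (- sigma L (2 * z) / sigma L z ^ 4) z := by
    have h3 : DifferentiableAt ℂ (fun x => (- sigma L (x + z) / (sigma L x ^ 2 * sigma L z ^ 2))) z := by
      refine DifferentiableAt.div ?_ ?_ (by positivity)
      · exact (hsd.comp (differentiable_id.add_const z) z).neg
      · exact ((hsd z).pow 2).mul_const _
    have h4 : HasDerivAt (fun x => sigma L (x - z)) 1 z := by
      have : HasDerivAt (sigma L) 1 (z - z) := by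
        rw [sub_self, ← deriv_sigma_zero L]; exact (hsd 0).hasDerivAt
      exact this.comp_sub_const z z
    have h5 := h3.hasDerivAt.mul h4
    refine h5.congr_deriv ?_
    rw [sub_self, sigma_zero, mul_zero, zero_add, mul_one, ← two_mul, ← pow_add]
  have h3 : (fun x => ℘[L] x - ℘[L] z) =ᶠ[𝓝 z] (fun x => (- sigma L (x + z) / (sigma L x ^ 2 * sigma L z ^ 2))
      * sigma L (x - z)) := by
    filter_upwards [(isOpen_compl L).mem_nhds hz] with x hx
    rw [wp_sub_wp L hx hz]; ring
  exact h1.unique (h2.congr_of_eventuallyEq h3)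

lemma wp'_ne_zero {z : ℂ} (hz : 2 * z ∉ L.lattice) : ℘'[L] z ≠ 0 := by
  have hz' : z ∉ L.lattice := by
    intro h
    apply hz
    rw [two_mul]; exact add_mem h h
  rw [wp'_eq L hz']
  exact div_ne_zero (neg_ne_zero.mpr (sigma_ne_zero L hz)) (pow_ne_zero _ (sigma_ne_zero L hz'))

lemma hasDerivAt_wp' {z : ℂ} (hz : 2 * z ∉ L.lattice) :
    HasDerivAt ℘'[L] (6 * ℘[L] z ^ 2 - L.g₂ / 2) z := by
  have hz' : z ∉ L.lattice := by
    intro h
    apply hz
    rw [two_mul]; exact add_mem h h
  have hd : DifferentiableAt ℂ ℘'[L] z :=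
    (L.differentiableOn_derivWeierstrassP z hz').differentiableAt ((isOpen_compl L).mem_nhds hz')
  have h1 : HasDerivAt (fun x => ℘'[L] x ^ 2) (2 * ℘'[L] z * deriv ℘'[L] z) z := by
    have := hd.hasDerivAt.fun_pow 2
    refine this.congr_deriv ?_
    simp
  have h2 : HasDerivAt (fun x => 4 * ℘[L] x ^ 3 - L.g₂ * ℘[L] x - L.g₃)
      (12 * ℘[L] z ^ 2 * ℘'[L] z - L.g₂ * ℘'[L] z) z := by
    have hp := hasDerivAt_weierstrassP L hz'
    have := (((hp.fun_pow 3).const_mul 4).fun_sub (hp.const_mul L.g₂)).sub_const L.g₃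
    refine this.congr_deriv ?_
    push_cast
    ring
  have h3 : (fun x => ℘'[L] x ^ 2) =ᶠ[𝓝 z] (fun x => 4 * ℘[L] x ^ 3 - L.g₂ * ℘[L] x - L.g₃) := by
    filter_upwards [(isOpen_compl L).mem_nhds hz'] with x hx
    exact L.derivWeierstrassP_sq x hx
  have h4 := h1.unique (h2.congr_of_eventuallyEq h3)
  have h5 := wp'_ne_zero L hz
  have h6 : deriv ℘'[L] z = 6 * ℘[L] z ^ 2 - L.g₂ / 2 := by
    have : ℘'[L] z * (2 * deriv ℘'[L] z - (12 * ℘[L] z ^ 2 - L.g₂)) = 0 := by
      linear_combination h4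
    rcases mul_eq_zero.mp this with h | h
    · exact absurd h h5
    · linear_combination h / 2
  rw [← h6]
  exact hd.hasDerivAt

end H667R3
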